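import Mathlib

set_option autoImplicit false

/-!
Linear orders with an involution and coloured links: uniqueness by back and forth.
-/

namespace Pool.Agent.U97.TLO

/-- strict linear orders -/
structure SLin (lt : ℕ → ℕ → Prop) : Prop where
  irr : ∀ x, ¬ lt x x
  tr : ∀ x y z, lt x y → lt y z → lt x z
  tot : ∀ x y, x = y ∨ lt x y ∨ lt y x

/-- graphs of involutions -/
structure Invo (F : ℕ → ℕ → Prop) : Prop where
  ex : ∀ x, ∃ y, F x y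
  uni : ∀ x y z, F x y → F x z → y = z
  sym : ∀ x y, F x y → F y x

section defs

variable {ι : Type} (lt F : ℕ → ℕ → Prop) (C : ι → ℕ → Prop)

/-- `a` is the last marker (fixed point of the involution) which is at most `p` -/
def Pc (a p : ℕ) : Prop := F a a ∧ (a = p ∨ lt a p) ∧ ∀ q, lt a q → (q = p ∨ lt q p) → ¬ F q q

/-- the pieces of `a` and `b` are linked by links of colour `i` -/
def Kd (i : ι) (a b : ℕ) : Prop := ∃ p q, C i p ∧ F p q ∧ Pc lt F a p ∧ Pc lt F b q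

/-- the classes of markers -/
def Eq' (e : ι) (a b : ℕ) : Prop := a = b ∨ Kd lt F C e a b

/-- the axioms -/
structure G1 (e : ι) (un : ι → Prop) : Prop where
  lin : SLin lt
  inv : Invo F
  c0 : ∀ i p, F p p → ¬ C i p
  c1 : ∀ p, ¬ F p p → ∃ i, C i p
  c2 : ∀ i j p, C i p → C j p → i = j
  c3 : ∀ i p q, C i p → F p q → C i q
  pc : ∀ p, ∃ a, Pc lt F a p
  sep : ∀ p q a, F p q → p ≠ q → Pc lt F a p → ¬ Pc lt F a q
  etr : ∀ a b c, F a a → F b b → F c c → Eq' lt F C e a b → Eq' lt F C e b c → Eq' lt F C e a c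
  d1 : ∀ a b c, F a a → F b b → F c c → lt a b → ∃ x, F x x ∧ Eq' lt F C e c x ∧ lt a x ∧ lt x b
  d2 : ∀ a c, F a a → F c c → ∃ x, F x x ∧ Eq' lt F C e c x ∧ lt a x
  d3 : ∀ a c, F a a → F c c → ∃ x, F x x ∧ Eq' lt F C e c x ∧ lt x a
  ivt : ∀ i a b a' b', F a a → F b b → F a' a' → F b' b' → lt a b → lt a' b' →
    Eq' lt F C e a a' → Eq' lt F C e b b' → Kd lt F C i a b → Kd lt F C i a' b'
  una : ∀ i a b b', un i → F a a → F b b → F b' b' → lt a b → lt a b' →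
    Kd lt F C i a b → Kd lt F C i a b'
  gen : ∀ i a b p q r s, a ≠ b → Kd lt F C i a b → Pc lt F a p → lt p q → Pc lt F b r → lt r s →
    ∃ x y, C i x ∧ F x y ∧ Pc lt F a x ∧ Pc lt F b y ∧ lt p x ∧ lt x q ∧ lt r y ∧ lt y s
  inf : ∀ m : ℕ, ∃ X : Fin m → ℕ, (∀ i, F (X i) (X i)) ∧ ∀ i i', Eq' lt F C e (X i) (X i') → i = i'

end defs

section order

variable {lt : ℕ → ℕ → Prop}

theorem exists_max (h : SLin lt) (A : Finset ℕ) (hA : A.Nonempty) :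
    ∃ m ∈ A, ∀ a ∈ A, a = m ∨ lt a m := by
  classical
  induction hA using Finset.Nonempty.cons_induction with
  | singleton a => exact ⟨a, Finset.mem_singleton_self a, fun b hb => Or.inl (Finset.mem_singleton.1 hb)⟩
  | cons a A ha hA ih =>
    obtain ⟨m, hm, h1⟩ := ih
    rcases h.tot a m with h2 | h2 | h2
    · refine ⟨m, Finset.mem_cons_of_mem hm, fun b hb => ?_⟩
      rcases Finset.mem_cons.1 hb with rfl | hb
      · exact Or.inl h2
      · exact h1 b hb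
    · refine ⟨m, Finset.mem_cons_of_mem hm, fun b hb => ?_⟩
      rcases Finset.mem_cons.1 hb with rfl | hb
      · exact Or.inr h2
      · exact h1 b hb
    · refine ⟨a, Finset.mem_cons_self a A, fun b hb => ?_⟩
      rcases Finset.mem_cons.1 hb with rfl | hb
      · exact Or.inl rfl
      · rcases h1 b hb with rfl | h3
        · exact Or.inr h2
        · exact Or.inr (h.tr _ _ _ h3 h2)

theorem SLin.rev (h : SLin lt) : SLin fun x y => lt y x :=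
  ⟨h.irr, fun x y z h1 h2 => h.tr _ _ _ h2 h1, fun x y => by
    rcases h.tot x y with h | h | h
    · exact Or.inl h
    · exact Or.inr (Or.inr h)
    · exact Or.inr (Or.inl h)⟩

theorem exists_min (h : SLin lt) (A : Finset ℕ) (hA : A.Nonempty) :
    ∃ m ∈ A, ∀ a ∈ A, a = m ∨ lt m a := exists_max h.rev A hA

theorem SLin.asym (h : SLin lt) {x y : ℕ} (h1 : lt x y) (h2 : lt y x) : False :=
  h.irr x (h.tr _ _ _ h1 h2)

end order

section one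

variable {ι : Type} {lt F : ℕ → ℕ → Prop} {C : ι → ℕ → Prop} {e : ι} {un : ι → Prop}

theorem pc_uni (h : SLin lt) {a b p : ℕ} (h1 : Pc lt F a p) (h2 : Pc lt F b p) : a = b := by
  rcases h.tot a b with h3 | h3 | h3
  · exact h3
  · exact absurd h2.1 (h1.2.2 b h3 h2.2.1)
  · exact absurd h1.1 (h2.2.2 a h3 h1.2.1)

theorem pc_self (h : SLin lt) {a : ℕ} (h1 : F a a) : Pc lt F a a :=
  ⟨h1, Or.inl rfl, fun q h2 h3 => by
    rcases h3 with rfl | h3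
    · exact absurd h2 (h.irr _)
    · exact (h.asym h2 h3).elim⟩

/-- order of points in different pieces -/
theorem pc_lt (h : SLin lt) {a b x y : ℕ} (h1 : Pc lt F a x) (h2 : Pc lt F b y) (hab : lt a b) :
    lt x y := by
  have h3 : lt x b := by
    rcases h.tot x b with h3 | h3 | h3
    · exact absurd h2.1 (h1.2.2 b hab (Or.inl h3.symm))
    · exact h3
    · exact absurd h2.1 (h1.2.2 b hab (Or.inr h3))
  rcases h2.2.1 with rfl | h4
  · exact h3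
  · exact h.tr _ _ _ h3 h4

theorem pc_lt_iff (h : SLin lt) {a b x y : ℕ} (h1 : Pc lt F a x) (h2 : Pc lt F b y) (hab : a ≠ b) :
    lt x y ↔ lt a b := by
  constructor
  · intro h3
    rcases h.tot a b with h4 | h4 | h4
    · exact absurd h4 hab
    · exact h4
    · exact (h.asym h3 (pc_lt h h2 h1 h4)).elim
  · exact pc_lt h h1 h2

/-- a point below a point `x` of the piece of `a` is below `a` or in the piece of `a` -/
theorem pc_below (h : SLin lt) {a x y : ℕ} (h1 : Pc lt F a x) (h2 : lt y x) :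
    lt y a ∨ Pc lt F a y := by
  rcases h.tot y a with rfl | h3 | h3
  · exact Or.inr (pc_self h h1.1)
  · exact Or.inl h3
  · refine Or.inr ⟨h1.1, Or.inr h3, fun q hq1 hq2 => h1.2.2 q hq1 (Or.inr ?_)⟩
    rcases hq2 with rfl | hq2
    · exact h2
    · exact h.tr _ _ _ hq2 h2

theorem kd_symm (hF : Invo F) (hc : ∀ i p q, C i p → F p q → C i q) {i : ι} {a b : ℕ}
    (h : Kd lt F C i a b) : Kd lt F C i b a := by
  obtain ⟨p, q, h1, h2, h3, h4⟩ := h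
  exact ⟨q, p, hc _ _ _ h1 h2, hF.sym _ _ h2, h4, h3⟩

theorem eq_symm (h : G1 lt F C e un) {a b : ℕ} (h1 : Eq' lt F C e a b) : Eq' lt F C e b a := by
  rcases h1 with rfl | h1
  · exact Or.inl rfl
  · exact Or.inr (kd_symm h.inv h.c3 h1)

theorem cutM (h : G1 lt F C e un) {A B : Finset ℕ} (hA : ∀ a ∈ A, F a a) (hB : ∀ b ∈ B, F b b)
    (hAB : ∀ a ∈ A, ∀ b ∈ B, lt a b) {c : ℕ} (hc : F c c) :
    ∃ x, F x x ∧ Eq' lt F C e c x ∧ (∀ a ∈ A, lt a x) ∧ ∀ b ∈ B, lt x b := by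
  have hl := h.lin
  rcases A.eq_empty_or_nonempty with rfl | hA'
  · rcases B.eq_empty_or_nonempty with rfl | hB'
    · exact ⟨c, hc, Or.inl rfl, by simp, by simp⟩
    · obtain ⟨m, hm, h1⟩ := exists_min hl B hB'
      obtain ⟨x, h2, h3, h4⟩ := h.d3 m c (hB m hm) hc
      refine ⟨x, h2, h3, by simp, fun b hb => ?_⟩
      rcases h1 b hb with rfl | h5
      · exact h4
      · exact hl.tr _ _ _ h4 h5
  · obtain ⟨m, hm, h1⟩ := exists_max hl A hA'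
    have key : ∀ x, lt m x → ∀ a ∈ A, lt a x := by
      intro x hx a ha
      rcases h1 a ha with rfl | h5
      · exact hx
      · exact hl.tr _ _ _ h5 hx
    rcases B.eq_empty_or_nonempty with rfl | hB'
    · obtain ⟨x, h2, h3, h4⟩ := h.d2 m c (hA m hm) hc
      exact ⟨x, h2, h3, key x h4, by simp⟩
    · obtain ⟨m', hm', h1'⟩ := exists_min hl B hB'
      obtain ⟨x, h2, h3, h4, h5⟩ := h.d1 m m' c (hA m hm) (hB m' hm') hc (hAB m hm m' hm')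
      refine ⟨x, h2, h3, key x h4, fun b hb => ?_⟩
      rcases h1' b hb with rfl | h6
      · exact h5
      · exact hl.tr _ _ _ h5 h6

theorem exists_gt (h : G1 lt F C e un) (p : ℕ) : ∃ q, lt p q := by
  obtain ⟨a, ha⟩ := h.pc p
  obtain ⟨x, h1, -, h2⟩ := h.d2 a a ha.1 ha.1
  exact ⟨x, pc_lt h.lin ha (pc_self h.lin h1) h2⟩

end one

/-! ### Partial isomorphisms -/

section two

variable {ι : Type} {lt F lt' F' : ℕ → ℕ → Prop} {C C' : ι → ℕ → Prop} {e : ι} {un : ι → Prop}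

/-- a matching of the classes of markers -/
structure Mch (lt F : ℕ → ℕ → Prop) (C : ι → ℕ → Prop) (lt' F' : ℕ → ℕ → Prop)
    (C' : ι → ℕ → Prop) (e : ι) (Mt : ℕ → ℕ → Prop) : Prop where
  l : ∀ a, F a a → ∃ a', F' a' a' ∧ Mt a a'
  r : ∀ a', F' a' a' → ∃ a, F a a ∧ Mt a a'
  el : ∀ a b a', F a a → F b b → F' a' a' → Mt a a' → Eq' lt F C e a b → Mt b a'
  er : ∀ a a' b', F a a → F' a' a' → F' b' b' → Mt a a' → Eq' lt' F' C' e a' b' → Mt a b'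
  kd : ∀ i a b a' b', F a a → F b b → F' a' a' → F' b' b' → Mt a a' → Mt b b' → lt a b →
    lt' a' b' → (Kd lt F C i a b ↔ Kd lt' F' C' i a' b')

theorem Mch.symm {Mt : ℕ → ℕ → Prop} (h : Mch lt F C lt' F' C' e Mt) :
    Mch lt' F' C' lt F C e fun a b => Mt b a :=
  ⟨h.r, h.l, fun a b a' h1 h2 h3 h4 h5 => h.er a' a b h3 h1 h2 h4 h5,
    fun a a' b' h1 h2 h3 h4 h5 => h.el a' b' a h2 h3 h1 h4 h5,
    fun i a b a' b' h1 h2 h3 h4 h5 h6 h7 h8 =>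
      (h.kd i a' b' a b h3 h4 h1 h2 h5 h6 h8 h7).symm⟩

/-- finite partial isomorphisms -/
structure PI (lt F : ℕ → ℕ → Prop) (C : ι → ℕ → Prop) (lt' F' : ℕ → ℕ → Prop)
    (C' : ι → ℕ → Prop) (Mt : ℕ → ℕ → Prop) (P : Finset (ℕ × ℕ)) : Prop where
  o : ∀ u ∈ P, ∀ v ∈ P, (lt u.1 v.1 ↔ lt' u.2 v.2)
  p : ∀ u ∈ P, ∃ v ∈ P, Pc lt F v.1 u.1 ∧ Pc lt' F' v.2 u.2
  f : ∀ u ∈ P, ∃ v ∈ P, F u.1 v.1 ∧ F' u.2 v.2
  c : ∀ u ∈ P, ∀ i, C i u.1 ↔ C' i u.2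
  m : ∀ u ∈ P, F u.1 u.1 → F' u.2 u.2 → Mt u.1 u.2

def sw (P : Finset (ℕ × ℕ)) : Finset (ℕ × ℕ) := P.image fun u => (u.2, u.1)

theorem mem_sw {P : Finset (ℕ × ℕ)} {u : ℕ × ℕ} : u ∈ sw P ↔ (u.2, u.1) ∈ P := by
  unfold sw
  rw [Finset.mem_image]
  constructor
  · rintro ⟨v, hv, rfl⟩
    exact hv
  · intro h
    exact ⟨_, h, rfl⟩

theorem sw_sw (P : Finset (ℕ × ℕ)) : sw (sw P) = P := by
  ext u
  rw [mem_sw, mem_sw]

theorem PI.symm {Mt : ℕ → ℕ → Prop} {P : Finset (ℕ × ℕ)} (h : PI lt F C lt' F' C' Mt P) :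
    PI lt' F' C' lt F C (fun a b => Mt b a) (sw P) := by
  refine ⟨fun u hu v hv => ?_, fun u hu => ?_, fun u hu => ?_, fun u hu i => ?_, fun u hu h1 h2 => ?_⟩
  · exact (h.o _ (mem_sw.1 hu) _ (mem_sw.1 hv)).symm
  · obtain ⟨v, hv, h1, h2⟩ := h.p _ (mem_sw.1 hu)
    exact ⟨(v.2, v.1), mem_sw.2 hv, h2, h1⟩
  · obtain ⟨v, hv, h1, h2⟩ := h.f _ (mem_sw.1 hu)
    exact ⟨(v.2, v.1), mem_sw.2 hv, h2, h1⟩
  · exact (h.c _ (mem_sw.1 hu) i).symm
  · exact h.m _ (mem_sw.1 hu) h2 h1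

variable {Mt : ℕ → ℕ → Prop} {P : Finset (ℕ × ℕ)}

theorem PI.inj (h : PI lt F C lt' F' C' Mt P) (hl : SLin lt) (hl' : SLin lt') {u v : ℕ × ℕ}
    (hu : u ∈ P) (hv : v ∈ P) : u.1 = v.1 ↔ u.2 = v.2 := by
  have h1 := h.o u hu v hv
  have h2 := h.o v hv u hu
  constructor
  · intro h3
    rcases hl'.tot u.2 v.2 with h4 | h4 | h4
    · exact h4
    · rw [← h1, h3] at h4
      exact absurd h4 (hl.irr _)
    · rw [← h2, h3] at h4
      exact absurd h4 (hl.irr _)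
  · intro h3
    rcases hl.tot u.1 v.1 with h4 | h4 | h4
    · exact h4
    · rw [h1, h3] at h4
      exact absurd h4 (hl'.irr _)
    · rw [h2, h3] at h4
      exact absurd h4 (hl'.irr _)

theorem PI.mk_iff (h : PI lt F C lt' F' C' Mt P) (hG : G1 lt F C e un) (hG' : G1 lt' F' C' e un)
    {u : ℕ × ℕ} (hu : u ∈ P) : F u.1 u.1 ↔ F' u.2 u.2 := by
  obtain ⟨v, hv, h1, h2⟩ := h.f u hu
  have h3 := h.inj hG.lin hG'.lin hu hv
  constructor
  · intro h4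
    have h5 : u.1 = v.1 := hG.inv.uni _ _ _ h4 h1
    rw [← h3.1 h5] at h2
    exact h2
  · intro h4
    have h5 : u.2 = v.2 := hG'.inv.uni _ _ _ h4 h2
    rw [← h3.2 h5] at h1
    exact h1

/-- adding a marker -/
theorem PI.addM (hG : G1 lt F C e un) (hG' : G1 lt' F' C' e un)
    (hM : Mch lt F C lt' F' C' e Mt) (h : PI lt F C lt' F' C' Mt P) {x : ℕ} (hx : F x x) :
    ∃ P', PI lt F C lt' F' C' Mt P' ∧ P ⊆ P' ∧ ∃ x', (x, x') ∈ P' := by
  classical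
  by_cases hxP : ∃ x', (x, x') ∈ P
  · exact ⟨P, h, Finset.Subset.refl _, hxP⟩
  have hl := hG.lin
  have hl' := hG'.lin
  let A : Finset ℕ := (P.filter fun u => F u.1 u.1 ∧ lt u.1 x).image Prod.snd
  let B : Finset ℕ := (P.filter fun u => F u.1 u.1 ∧ lt x u.1).image Prod.snd
  obtain ⟨c', hc1, hc2⟩ := hM.l x hx
  have hA : ∀ a', a' ∈ A ↔ ∃ u ∈ P, F u.1 u.1 ∧ lt u.1 x ∧ u.2 = a' := by
    intro a'
    simp only [A, Finset.mem_image, Finset.mem_filter]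
    constructor
    · rintro ⟨u, ⟨h1, h2, h3⟩, h4⟩
      exact ⟨u, h1, h2, h3, h4⟩
    · rintro ⟨u, h1, h2, h3, h4⟩
      exact ⟨u, ⟨h1, h2, h3⟩, h4⟩
  have hB : ∀ a', a' ∈ B ↔ ∃ u ∈ P, F u.1 u.1 ∧ lt x u.1 ∧ u.2 = a' := by
    intro a'
    simp only [B, Finset.mem_image, Finset.mem_filter]
    constructor
    · rintro ⟨u, ⟨h1, h2, h3⟩, h4⟩
      exact ⟨u, h1, h2, h3, h4⟩
    · rintro ⟨u, h1, h2, h3, h4⟩
      exact ⟨u, ⟨h1, h2, h3⟩, h4⟩
  obtain ⟨x', k1, k2, k3, k4⟩ := cutM hG' (A := A) (B := B) (by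
      intro a ha
      obtain ⟨u, h1, h2, h3, rfl⟩ := (hA a).1 ha
      exact (h.mk_iff hG hG' h1).1 h2) (by
      intro a ha
      obtain ⟨u, h1, h2, h3, rfl⟩ := (hB a).1 ha
      exact (h.mk_iff hG hG' h1).1 h2) (by
      intro a ha b hb
      obtain ⟨u, h1, h2, h3, rfl⟩ := (hA a).1 ha
      obtain ⟨v, h4, h5, h6, rfl⟩ := (hB b).1 hb
      exact (h.o u h1 v h4).1 (hl.tr _ _ _ h3 h6)) hc1
  have hMt : Mt x x' := hM.er x c' x' hx hc1 k1 hc2 k2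
  -- comparison with the old elements
  have hne : ∀ u ∈ P, u.1 ≠ x := fun u hu e => hxP ⟨u.2, by rw [← e]; exact hu⟩
  have hlt : ∀ u ∈ P, (lt u.1 x → lt' u.2 x') ∧ (lt x u.1 → lt' x' u.2) := by
    intro u hu
    obtain ⟨v, hv, h1, h2⟩ := h.p u hu
    have hvx := hne v hv
    constructor
    · intro h3
      have h4 : lt v.1 x := by
        rcases h1.2.1 with h4 | h4
        · rw [h4]; exact h3
        · exact hl.tr _ _ _ h4 h3
      exact pc_lt hl' h2 (pc_self hl' k1) (k3 _ ((hA _).2 ⟨v, hv, h1.1, h4, rfl⟩))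
    · intro h3
      have h4 : lt x v.1 := by
        rcases hl.tot x v.1 with h4 | h4 | h4
        · exact absurd h4.symm hvx
        · exact h4
        · exact absurd hx (h1.2.2 x h4 (Or.inr h3))
      exact pc_lt hl' (pc_self hl' k1) h2 (k4 _ ((hB _).2 ⟨v, hv, h1.1, h4, rfl⟩))
  have hiff : ∀ u ∈ P, (lt u.1 x ↔ lt' u.2 x') ∧ (lt x u.1 ↔ lt' x' u.2) := by
    intro u hu
    obtain ⟨h1, h2⟩ := hlt u hu
    rcases hl.tot u.1 x with h3 | h3 | h3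
    · exact absurd h3 (hne u hu)
    · exact ⟨⟨h1, fun _ => h3⟩, ⟨h2, fun h4 => (hl'.asym h4 (h1 h3)).elim⟩⟩
    · exact ⟨⟨h1, fun h4 => (hl'.asym h4 (h2 h3)).elim⟩, ⟨h2, fun _ => h3⟩⟩
  refine ⟨insert (x, x') P, ⟨?_, ?_, ?_, ?_, ?_⟩, Finset.subset_insert _ _, x',
    Finset.mem_insert_self _ _⟩
  · intro u hu v hv
    rcases Finset.mem_insert.1 hu with rfl | hu <;> rcases Finset.mem_insert.1 hv with rfl | hv
    · exact ⟨fun h => absurd h (hl.irr _), fun h => absurd h (hl'.irr _)⟩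
    · exact (hiff v hv).2
    · exact (hiff u hu).1
    · exact h.o u hu v hv
  · intro u hu
    rcases Finset.mem_insert.1 hu with rfl | hu
    · exact ⟨(x, x'), Finset.mem_insert_self _ _, pc_self hl hx, pc_self hl' k1⟩
    · obtain ⟨v, hv, h1⟩ := h.p u hu
      exact ⟨v, Finset.mem_insert_of_mem hv, h1⟩
  · intro u hu
    rcases Finset.mem_insert.1 hu with rfl | hu
    · exact ⟨(x, x'), Finset.mem_insert_self _ _, hx, k1⟩
    · obtain ⟨v, hv, h1⟩ := h.f u hu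
      exact ⟨v, Finset.mem_insert_of_mem hv, h1⟩
  · intro u hu i
    rcases Finset.mem_insert.1 hu with rfl | hu
    · exact ⟨fun h => absurd h (hG.c0 i x hx), fun h => absurd h (hG'.c0 i x' k1)⟩
    · exact h.c u hu i
  · intro u hu h1 h2
    rcases Finset.mem_insert.1 hu with rfl | hu
    · exact hMt
    · exact h.m u hu h1 h2

/-- the lower bound for a new link point -/
theorem low (hl : SLin lt) (hl' : SLin lt') (h : PI lt F C lt' F' C' Mt P) {a a' x : ℕ}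
    (ha : (a, a') ∈ P) (hax : Pc lt F a x) (hx : ∀ u ∈ P, u.1 ≠ x) :
    ∃ p ∈ P, lt p.1 x ∧ Pc lt' F' a' p.2 ∧ Pc lt F a p.1 ∧
      ∀ u ∈ P, lt u.1 x → u.2 = p.2 ∨ lt' u.2 p.2 := by
  classical
  let A : Finset ℕ := (P.filter fun u => lt u.1 x).image Prod.snd
  have hA : ∀ c, c ∈ A ↔ ∃ u ∈ P, lt u.1 x ∧ u.2 = c := by
    intro c
    simp only [A, Finset.mem_image, Finset.mem_filter]
    constructor
    · rintro ⟨u, ⟨h1, h3⟩, h4⟩
      exact ⟨u, h1, h3, h4⟩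
    · rintro ⟨u, h1, h3, h4⟩
      exact ⟨u, ⟨h1, h3⟩, h4⟩
  have hax' : lt a x := hax.2.1.resolve_left (hx _ ha)
  obtain ⟨m, hm, h1⟩ := exists_max hl' A ⟨a', (hA a').2 ⟨_, ha, hax', rfl⟩⟩
  obtain ⟨p, hp, h2, rfl⟩ := (hA m).1 hm
  refine ⟨p, hp, h2, ?_, ?_, fun u hu h3 => h1 _ ((hA _).2 ⟨u, hu, h3, rfl⟩)⟩
  all_goals
    obtain ⟨v, hv, h3, h4⟩ := h.p p hp
    have h5 : v.1 = a := by
      rcases pc_below hl hax h2 with h6 | h6
      · have h7 := h1 a' ((hA a').2 ⟨_, ha, hax', rfl⟩)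
        have h8 := (h.o p hp _ ha).1 h6
        rcases h7 with h7 | h7
        · rw [← h7] at h8
          exact absurd h8 (hl'.irr _)
        · exact (hl'.asym h7 h8).elim
      · exact pc_uni hl h3 h6
    have h6 : v.2 = a' := (h.inj hl hl' hv ha).1 h5
  · rw [← h6]; exact h4
  · rw [← h5]; exact h3

theorem upp (hG' : G1 lt' F' C' e un) (hl : SLin lt) (h : PI lt F C lt' F' C' Mt P)
    {x : ℕ} {p : ℕ × ℕ} (hp : p ∈ P) (hpx : lt p.1 x) :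
    ∃ q, lt' p.2 q ∧ ∀ u ∈ P, lt x u.1 → q = u.2 ∨ lt' q u.2 := by
  classical
  let A : Finset ℕ := (P.filter fun u => lt x u.1).image Prod.snd
  have hA : ∀ c, c ∈ A ↔ ∃ u ∈ P, lt x u.1 ∧ u.2 = c := by
    intro c
    simp only [A, Finset.mem_image, Finset.mem_filter]
    constructor
    · rintro ⟨u, ⟨h1, h3⟩, h4⟩
      exact ⟨u, h1, h3, h4⟩
    · rintro ⟨u, h1, h3, h4⟩
      exact ⟨u, ⟨h1, h3⟩, h4⟩
  rcases A.eq_empty_or_nonempty with hA0 | hA0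
  · obtain ⟨q, hq⟩ := exists_gt hG' p.2
    refine ⟨q, hq, fun u hu h1 => ?_⟩
    have : u.2 ∈ A := (hA _).2 ⟨u, hu, h1, rfl⟩
    rw [hA0] at this
    exact absurd this (Finset.notMem_empty _)
  · obtain ⟨m, hm, h1⟩ := exists_min hG'.lin A hA0
    obtain ⟨u, hu, h2, rfl⟩ := (hA m).1 hm
    refine ⟨u.2, (h.o p hp u hu).1 (hl.tr _ _ _ hpx h2), fun v hv h3 => ?_⟩
    rcases h1 v.2 ((hA _).2 ⟨v, hv, h3, rfl⟩) with h4 | h4
    · exact Or.inl h4.symm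
    · exact Or.inr h4

/-- adding a link -/
theorem PI.addL (hG : G1 lt F C e un) (hG' : G1 lt' F' C' e un)
    (hM : Mch lt F C lt' F' C' e Mt) (h : PI lt F C lt' F' C' Mt P) {x : ℕ} (hx : ¬ F x x) :
    ∃ P', PI lt F C lt' F' C' Mt P' ∧ P ⊆ P' ∧ ∃ x', (x, x') ∈ P' := by
  classical
  by_cases hxP : ∃ x', (x, x') ∈ P
  · exact ⟨P, h, Finset.Subset.refl _, hxP⟩
  have hl := hG.lin
  have hl' := hG'.lin
  obtain ⟨y, hxy⟩ := hG.inv.ex x
  have hyx := hG.inv.sym _ _ hxy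
  have hne : x ≠ y := fun e => hx (by rw [← e] at hxy; exact hxy)
  obtain ⟨a, ha⟩ := hG.pc x
  obtain ⟨b, hb⟩ := hG.pc y
  have hab : a ≠ b := fun e => hG.sep x y a hxy hne ha (e ▸ hb)
  obtain ⟨i, hi⟩ := hG.c1 x hx
  obtain ⟨P1, h1, s1, a', ha'⟩ := h.addM hG hG' hM ha.1
  obtain ⟨P2, h2, s2, b', hb'⟩ := h1.addM hG hG' hM hb.1
  have ha2 : (a, a') ∈ P2 := s2 ha'
  by_cases hxP2 : ∃ x', (x, x') ∈ P2
  · exact ⟨P2, h2, s1.trans s2, hxP2⟩
  have hnx : ∀ u ∈ P2, u.1 ≠ x := fun u hu e => hxP2 ⟨u.2, by rw [← e]; exact hu⟩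
  have hny : ∀ u ∈ P2, u.1 ≠ y := by
    intro u hu e
    obtain ⟨v, hv, h3, h4⟩ := h2.f u hu
    rw [e] at h3
    exact hnx v hv (hG.inv.uni _ _ _ h3 hyx)
  have hFa : F' a' a' := (h2.mk_iff hG hG' ha2).1 ha.1
  have hFb : F' b' b' := (h2.mk_iff hG hG' hb').1 hb.1
  have hMa : Mt a a' := h2.m _ ha2 ha.1 hFa
  have hMb : Mt b b' := h2.m _ hb' hb.1 hFb
  have hkd : Kd lt' F' C' i a' b' := by
    have k1 : Kd lt F C i a b := ⟨x, y, hi, hxy, ha, hb⟩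
    rcases hl.tot a b with h3 | h3 | h3
    · exact absurd h3 hab
    · exact (hM.kd i a b a' b' ha.1 hb.1 hFa hFb hMa hMb h3 ((h2.o _ ha2 _ hb').1 h3)).1 k1
    · exact kd_symm hG'.inv hG'.c3 ((hM.kd i b a b' a' hb.1 ha.1 hFb hFa hMb hMa h3
        ((h2.o _ hb' _ ha2).1 h3)).1 (kd_symm hG.inv hG.c3 k1))
  have hab' : a' ≠ b' := fun e => hab ((h2.inj hl hl' ha2 hb').2 e)
  obtain ⟨p, hp, p1, p2, p3, p4⟩ := low hl hl' h2 ha2 ha hnx
  obtain ⟨r, hr, r1, r2, r3, r4⟩ := low hl hl' h2 hb' hb hny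
  obtain ⟨q, q1, q2⟩ := upp hG' hl h2 hp p1
  obtain ⟨s, t1, t2⟩ := upp hG' hl h2 hr r1
  obtain ⟨x', y', g1, g2, g3, g4, g5, g6, g7, g8⟩ :=
    hG'.gen i a' b' p.2 q r.2 s hab' hkd p2 q1 r2 t1
  have hltx : ∀ u ∈ P2, (lt u.1 x → lt' u.2 x') ∧ (lt x u.1 → lt' x' u.2) := by
    intro u hu
    constructor
    · intro h3
      rcases p4 u hu h3 with h4 | h4
      · rw [h4]; exact g5
      · exact hl'.tr _ _ _ h4 g5
    · intro h3
      rcases q2 u hu h3 with h4 | h4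
      · rw [← h4]; exact g6
      · exact hl'.tr _ _ _ g6 h4
  have hlty : ∀ u ∈ P2, (lt u.1 y → lt' u.2 y') ∧ (lt y u.1 → lt' y' u.2) := by
    intro u hu
    constructor
    · intro h3
      rcases r4 u hu h3 with h4 | h4
      · rw [h4]; exact g7
      · exact hl'.tr _ _ _ h4 g7
    · intro h3
      rcases t2 u hu h3 with h4 | h4
      · rw [← h4]; exact g8
      · exact hl'.tr _ _ _ g8 h4
  have hiff : ∀ z z', (∀ u ∈ P2, u.1 ≠ z) →
      (∀ u ∈ P2, (lt u.1 z → lt' u.2 z') ∧ (lt z u.1 → lt' z' u.2)) →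
      ∀ u ∈ P2, (lt u.1 z ↔ lt' u.2 z') ∧ (lt z u.1 ↔ lt' z' u.2) := by
    intro z z' hz h0 u hu
    obtain ⟨h1, h2⟩ := h0 u hu
    rcases hl.tot u.1 z with h3 | h3 | h3
    · exact absurd h3 (hz u hu)
    · exact ⟨⟨h1, fun _ => h3⟩, ⟨h2, fun h4 => (hl'.asym h4 (h1 h3)).elim⟩⟩
    · exact ⟨⟨h1, fun h4 => (hl'.asym h4 (h2 h3)).elim⟩, ⟨h2, fun _ => h3⟩⟩
  have hX := hiff x x' hnx hltx
  have hY := hiff y y' hny hlty
  have hxy' : (lt x y ↔ lt' x' y') ∧ (lt y x ↔ lt' y' x') := by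
    rw [pc_lt_iff hl ha hb hab, pc_lt_iff hl' g3 g4 hab', pc_lt_iff hl hb ha hab.symm,
      pc_lt_iff hl' g4 g3 hab'.symm]
    exact ⟨h2.o _ ha2 _ hb', h2.o _ hb' _ ha2⟩
  have hnF : ¬ F' x' x' := fun e => hab' (by
    have e2 : x' = y' := hG'.inv.uni _ _ _ e g2
    rw [← e2] at g4
    exact pc_uni hl' g3 g4)
  have hnF2 : ¬ F' y' y' := fun e => hab' (by
    have e2 : x' = y' := hG'.inv.uni _ _ _ (hG'.inv.sym _ _ g2) e
    rw [← e2] at g4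
    exact pc_uni hl' g3 g4)
  have hnFy : ¬ F y y := fun e => hne (hG.inv.uni _ _ _ hyx e)
  have mem : ∀ u, u ∈ insert (x, x') (insert (y, y') P2) ↔ u = (x, x') ∨ u = (y, y') ∨ u ∈ P2 := by
    intro u
    rw [Finset.mem_insert, Finset.mem_insert]
  refine ⟨insert (x, x') (insert (y, y') P2), ⟨?_, ?_, ?_, ?_, ?_⟩, ?_, x',
    Finset.mem_insert_self _ _⟩
  · intro u hu v hv
    rcases (mem u).1 hu with rfl | rfl | hu <;> rcases (mem v).1 hv with rfl | rfl | hv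
    · exact ⟨fun h => absurd h (hl.irr _), fun h => absurd h (hl'.irr _)⟩
    · exact hxy'.1
    · exact (hX v hv).2
    · exact hxy'.2
    · exact ⟨fun h => absurd h (hl.irr _), fun h => absurd h (hl'.irr _)⟩
    · exact (hY v hv).2
    · exact (hX u hu).1
    · exact (hY u hu).1
    · exact h2.o u hu v hv
  · intro u hu
    rcases (mem u).1 hu with rfl | rfl | hu
    · exact ⟨(a, a'), (mem _).2 (Or.inr (Or.inr ha2)), ha, g3⟩
    · exact ⟨(b, b'), (mem _).2 (Or.inr (Or.inr hb')), hb, g4⟩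
    · obtain ⟨v, hv, h1⟩ := h2.p u hu
      exact ⟨v, (mem _).2 (Or.inr (Or.inr hv)), h1⟩
  · intro u hu
    rcases (mem u).1 hu with rfl | rfl | hu
    · exact ⟨(y, y'), (mem _).2 (Or.inr (Or.inl rfl)), hxy, g2⟩
    · exact ⟨(x, x'), (mem _).2 (Or.inl rfl), hyx, hG'.inv.sym _ _ g2⟩
    · obtain ⟨v, hv, h1⟩ := h2.f u hu
      exact ⟨v, (mem _).2 (Or.inr (Or.inr hv)), h1⟩
  · intro u hu j
    rcases (mem u).1 hu with rfl | rfl | hu
    · constructor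
      · intro h3
        rw [← hG.c2 _ _ _ hi h3]
        exact g1
      · intro h3
        rw [← hG'.c2 _ _ _ g1 h3]
        exact hi
    · constructor
      · intro h3
        rw [← hG.c2 _ _ _ (hG.c3 _ _ _ hi hxy) h3]
        exact hG'.c3 _ _ _ g1 g2
      · intro h3
        rw [← hG'.c2 _ _ _ (hG'.c3 _ _ _ g1 g2) h3]
        exact hG.c3 _ _ _ hi hxy
    · exact h2.c u hu j
  · intro u hu h3 h4
    rcases (mem u).1 hu with rfl | rfl | hu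
    · exact absurd h3 hx
    · exact absurd h3 hnFy
    · exact h2.m u hu h3 h4
  · intro u hu
    exact (mem u).2 (Or.inr (Or.inr (s2 (s1 hu))))

theorem PI.forth (hG : G1 lt F C e un) (hG' : G1 lt' F' C' e un)
    (hM : Mch lt F C lt' F' C' e Mt) (h : PI lt F C lt' F' C' Mt P) (x : ℕ) :
    ∃ P', PI lt F C lt' F' C' Mt P' ∧ P ⊆ P' ∧ ∃ x', (x, x') ∈ P' := by
  by_cases hx : F x x
  · exact h.addM hG hG' hM hx
  · exact h.addL hG hG' hM hx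

theorem PI.back (hG : G1 lt F C e un) (hG' : G1 lt' F' C' e un)
    (hM : Mch lt F C lt' F' C' e Mt) (h : PI lt F C lt' F' C' Mt P) (x' : ℕ) :
    ∃ P', PI lt F C lt' F' C' Mt P' ∧ P ⊆ P' ∧ ∃ x, (x, x') ∈ P' := by
  obtain ⟨P', h1, h2, x, h3⟩ := h.symm.forth hG' hG hM.symm x'
  refine ⟨sw P', h1.symm, fun u hu => ?_, x, mem_sw.2 h3⟩
  rw [mem_sw]
  exact h2 (mem_sw.2 hu)

/-- **Uniqueness.** -/
theorem iso_of_mch (hG : G1 lt F C e un) (hG' : G1 lt' F' C' e un)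
    (hM : Mch lt F C lt' F' C' e Mt) : ∃ σ : Equiv.Perm ℕ,
      (∀ x y, lt' (σ x) (σ y) ↔ lt x y) ∧ (∀ x y, F' (σ x) (σ y) ↔ F x y) ∧
        ∀ i x, C' i (σ x) ↔ C i x := by
  classical
  have hl := hG.lin
  have hl' := hG'.lin
  have step : ∀ (P : {P : Finset (ℕ × ℕ) // PI lt F C lt' F' C' Mt P}) (n : ℕ),
      ∃ P' : {P : Finset (ℕ × ℕ) // PI lt F C lt' F' C' Mt P}, P.1 ⊆ P'.1 ∧
        (∃ x', (n, x') ∈ P'.1) ∧ ∃ x, (x, n) ∈ P'.1 := by
    intro P n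
    obtain ⟨P1, h1, h2, x', h3⟩ := P.2.forth hG hG' hM n
    obtain ⟨P2, h4, h5, x, h6⟩ := h1.back hG hG' hM n
    exact ⟨⟨P2, h4⟩, h2.trans h5, ⟨x', h5 h3⟩, x, h6⟩
  choose nx hn1 hn2 hn3 using step
  have h0 : PI lt F C lt' F' C' Mt ∅ := ⟨by simp, by simp, by simp, by simp, by simp⟩
  let Q : ℕ → {P : Finset (ℕ × ℕ) // PI lt F C lt' F' C' Mt P} := fun n =>
    Nat.rec ⟨∅, h0⟩ (fun n P => nx P n) n
  have hQ : ∀ n, Q (n + 1) = nx (Q n) n := fun n => rfl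
  have mono : ∀ m n, m ≤ n → (Q m).1 ⊆ (Q n).1 := by
    intro m n hmn
    induction hmn with
    | refl => exact Finset.Subset.refl _
    | step _ ih => exact ih.trans (by rw [hQ]; exact hn1 _ _)
  have hl1 : ∀ x, ∃ x', (x, x') ∈ (Q (x + 1)).1 := fun x => by rw [hQ]; exact hn2 _ _
  have hr1 : ∀ x', ∃ x, (x, x') ∈ (Q (x' + 1)).1 := fun x => by rw [hQ]; exact hn3 _ _
  choose σ hσ using hl1
  choose τ hτ using hr1
  have both : ∀ u v : ℕ × ℕ, (∃ n, u ∈ (Q n).1) → (∃ n, v ∈ (Q n).1) →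
      ∃ n, u ∈ (Q n).1 ∧ v ∈ (Q n).1 := by
    rintro u v ⟨m, hm⟩ ⟨n, hn⟩
    exact ⟨max m n, mono m _ (le_max_left _ _) hm, mono n _ (le_max_right _ _) hn⟩
  have h1 : ∀ x, τ (σ x) = x := by
    intro x
    obtain ⟨n, k1, k2⟩ := both _ _ ⟨x + 1, hσ x⟩ ⟨σ x + 1, hτ (σ x)⟩
    exact ((Q n).2.inj hl hl' k2 k1).2 rfl
  have h2 : ∀ x, σ (τ x) = x := by
    intro x
    obtain ⟨n, k1, k2⟩ := both _ _ ⟨x + 1, hτ x⟩ ⟨τ x + 1, hσ (τ x)⟩
    exact ((Q n).2.inj hl hl' k2 k1).1 rfl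
  refine ⟨⟨σ, τ, h1, h2⟩, fun x y => ?_, fun x y => ?_, fun i x => ?_⟩
  · obtain ⟨n, k1, k2⟩ := both _ _ ⟨x + 1, hσ x⟩ ⟨y + 1, hσ y⟩
    exact ((Q n).2.o _ k1 _ k2).symm
  · obtain ⟨n, k1, k2⟩ := both _ _ ⟨x + 1, hσ x⟩ ⟨y + 1, hσ y⟩
    obtain ⟨v, hv, h3, h4⟩ := (Q n).2.f _ k1
    have h5 := (Q n).2.inj hl hl' hv k2
    show F' (σ x) (σ y) ↔ F x y
    constructor
    · intro h6
      have h7 : v.2 = σ y := hG'.inv.uni _ _ _ h4 h6
      rw [h5.2 h7] at h3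
      exact h3
    · intro h6
      have h7 : v.1 = y := hG.inv.uni _ _ _ h3 h6
      rw [h5.1 h7] at h4
      exact h4
  · exact ((Q (x + 1)).2.c _ (hσ x) i).symm

end two

end Pool.Agent.U97.TLO
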