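import Pool.Agent.U97.TLO.ItpC
import Pool.Agent.W889.FO.Main
import Pool.Agent.W889.FO.St0

set_option autoImplicit false

/-!
The chain of reductions.
-/

namespace Pool.Agent.U97.TLO

open FirstOrder FirstOrder.Language
open Pool.Agent.W889.FO

theorem countable_LC : Countable (Σ n, LC.Relations n) := by
  let p : Option (Option Ki) → Σ n, LC.Relations n := fun o => match o with
    | none => ⟨_, RC.lt⟩
    | some none => ⟨_, RC.F⟩
    | some (some k) => ⟨_, RC.C k⟩
  refine Function.Surjective.countable (f := p) ?_
  rintro ⟨n, Q⟩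
  cases Q with
  | lt => exact ⟨none, rfl⟩
  | F => exact ⟨some none, rfl⟩
  | C k => exact ⟨some (some k), rfl⟩

theorem countable_L2 : Countable (Σ n, L2.Relations n) := by
  let p : Bool → Σ n, L2.Relations n := fun o => match o with
    | true => ⟨_, R2.a⟩
    | false => ⟨_, R2.b⟩
  refine Function.Surjective.countable (f := p) ?_
  rintro ⟨n, Q⟩
  cases Q with
  | a => exact ⟨true, rfl⟩
  | b => exact ⟨false, rfl⟩

theorem countable_L2_symbols : Countable L2.Symbols := by
  have h1 : Countable (Σ n, L2.Relations n) := countable_L2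
  have h2 : Countable (Σ n, L2.Functions n) := by
    have : ∀ n, IsEmpty (L2.Functions n) := fun n => inferInstanceAs (IsEmpty Empty)
    infer_instance
  exact inferInstanceAs (Countable ((Σ n, L2.Functions n) ⊕ Σ n, L2.Relations n))

/-- from pairs of orders to orders with an involution -/
theorem red_C (h : ∀ T : L2.Theory, (∀ S : L2.Structure ℕ, @Theory.Model L2 ℕ S T → WC S) →
      Vaught L2 T) (T : L2.Theory) (hT : ∀ S : L2.Structure ℕ, @Theory.Model L2 ℕ S T →
      WB S ∧ WA (itpB.D S)) : Vaught L2 T := by
  have := countable_L2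
  exact itpC.transfer cntC T (fun M hM => exC (hT M hM).1 (hT M hM).2)
    fun T' hT' => h T' fun S hS => (hT' S hS).1

/-- from orders with an involution to coloured ones -/
theorem red_B (h : ∀ T : L2.Theory, (∀ S : L2.Structure ℕ, @Theory.Model L2 ℕ S T →
      WB S ∧ WA (itpB.D S)) → Vaught L2 T) (T : LC.Theory)
    (hT : ∀ S : LC.Structure ℕ, @Theory.Model LC ℕ S T → WA S) : Vaught LC T := by
  have := countable_LC
  exact itpB.transfer cntB T (fun M hM => exB (hT M hM))
    fun T' hT' => h T' fun S hS => ⟨(hT' S hS).1, hT _ (hT' S hS).2⟩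

/-- from coloured orders with an involution to structures with an equivalence relation -/
theorem red_A (h : ∀ T : LC.Theory, (∀ S : LC.Structure ℕ, @Theory.Model LC ℕ S T → WA S) →
      Vaught LC T) (T : (TL 0 StB.LB).Theory)
    (hT : ∀ S : (TL 0 StB.LB).Structure ℕ, @Theory.Model (TL 0 StB.LB) ℕ S T → W S) :
    Vaught (TL 0 StB.LB) T := by
  have : Countable (Σ n, StB.LB.Relations n) := StB.countable_LB
  have : Countable StB.LB.Symbols := by
    have h2 : Countable (Σ n, StB.LB.Functions n) := by
      have : ∀ n, IsEmpty (StB.LB.Functions n) := fun n => inferInstanceAs (IsEmpty Empty)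
      infer_instance
    exact inferInstanceAs (Countable ((Σ n, StB.LB.Functions n) ⊕ Σ n, StB.LB.Relations n))
  have h1 : Countable (TL 0 StB.LB).Symbols := countable_TL
  have : Countable (Σ n, (TL 0 StB.LB).Relations n) :=
    (Sum.inr_injective (α := Σ n, (TL 0 StB.LB).Functions n)
      (β := Σ n, (TL 0 StB.LB).Relations n)).countable
  exact itpA.transfer cntA T (fun M hM => exA (hT M hM))
    fun T' hT' => h T' fun S hS => (hT' S hS).1

/-- the reduction to the finite language -/
theorem red_0 (h : ∀ T : LC.Theory, (∀ S : LC.Structure ℕ, @Theory.Model LC ℕ S T → WA S) →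
      Vaught LC T) (T : StB.LB.Theory) : Vaught StB.LB T := by
  have : Countable (Σ n, StB.LB.Relations n) := StB.countable_LB
  obtain ⟨T', hT'⟩ := ax_theory (k := 0) T
  exact transfer T T' hT' (red_A h T' fun S hS => ((hT' S).1 hS).1)

end Pool.Agent.U97.TLO
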