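import Pool.Agent.U97.TLO.Back

set_option autoImplicit false

/-!
Linear orders with an involution and coloured links: existence.
-/

namespace Pool.Agent.U97.TLO

open Set

/-- an injective choice from infinite sets -/
theorem inj_choice {A : Type} [Countable A] (I : A → Set ℚ) (hI : ∀ a, (I a).Infinite) :
    ∃ r : A → ℚ, Function.Injective r ∧ ∀ a, r a ∈ I a := by
  classical
  obtain ⟨en, hen⟩ := exists_injective_nat A
  have h1 : ∀ (n : ℕ) (s : Finset ℚ), ∃ q, q ∉ s ∧ ∀ a, en a = n → q ∈ I a := by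
    intro n s
    by_cases hn : ∃ a, en a = n
    · obtain ⟨a, rfl⟩ := hn
      obtain ⟨q, hq1, hq2⟩ := (hI a).exists_notMem_finset s
      exact ⟨q, hq2, fun b hb => by rw [hen hb]; exact hq1⟩
    · obtain ⟨q, hq⟩ := Infinite.exists_notMem_finset s
      exact ⟨q, hq, fun a ha => absurd ⟨a, ha⟩ hn⟩
  choose c hc1 hc2 using h1
  let g : ℕ → Finset ℚ := fun n => Nat.rec ∅ (fun n s => insert (c n s) s) n
  have hg : ∀ n, g (n + 1) = insert (c n (g n)) (g n) := fun n => rfl
  have mono : ∀ m n, m ≤ n → g m ⊆ g n := by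
    intro m n hmn
    induction hmn with
    | refl => exact Finset.Subset.refl _
    | step _ ih => exact ih.trans (by rw [hg]; exact Finset.subset_insert _ _)
  have key : ∀ m n, m < n → c m (g m) ≠ c n (g n) := by
    intro m n hmn e
    apply hc1 n (g n)
    rw [← e]
    exact mono (m + 1) n hmn (by rw [hg]; exact Finset.mem_insert_self _ _)
  refine ⟨fun a => c (en a) (g (en a)), fun a b hab => ?_, fun a => hc2 _ _ _ rfl⟩
  apply hen
  by_contra hne
  rcases Nat.lt_or_gt_of_ne hne with h | h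
  · exact key _ _ h hab
  · exact key _ _ h hab.symm

/-- base structures -/
structure Base {ι : Type} (E : ℕ → ℕ → Prop) (B : ι → ℕ → ℕ → Prop) (e : ι) (un : ι → Prop) :
    Prop where
  refl : ∀ u, E u u
  symm : ∀ u v, E u v → E v u
  tr : ∀ u v w, E u v → E v w → E u w
  cls : ∀ u, {v | E u v}.Infinite
  inf : ∀ m : ℕ, ∃ X : Fin m → ℕ, ∀ i i', E (X i) (X i') → i = i'
  be : ∀ u v, B e u v ↔ E u v
  ivt : ∀ i u v u' v', E u u' → E v v' → B i u v → B i u' v'
  una : ∀ i u v v', un i → B i u v → B i u v'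

section

variable {ι : Type} {E : ℕ → ℕ → Prop} {B : ι → ℕ → ℕ → Prop} {e : ι} {un : ι → Prop}

theorem exists_pos (h : Base E B e un) : ∃ pos : ℕ → ℚ, Function.Injective pos ∧
    ∀ u a b, a < b → ∃ v, E u v ∧ a < pos v ∧ pos v < b := by
  classical
  have hne : Nonempty {p : ℚ × ℚ // p.1 < p.2} := ⟨⟨(0, 1), by norm_num⟩⟩
  obtain ⟨d, hd⟩ := exists_surjective_nat {p : ℚ × ℚ // p.1 < p.2}
  let s : ℕ → ℕ := fun v => Nat.count (fun w => E v w) v
  have hs : ∀ u k, ∃ v, E u v ∧ s v = k := by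
    intro u k
    have h1 : {v | E u v}.Infinite := h.cls u
    refine ⟨Nat.nth (fun v => E u v) k, Nat.nth_mem_of_infinite h1 k, ?_⟩
    have h2 : E u (Nat.nth (fun v => E u v) k) := Nat.nth_mem_of_infinite h1 k
    have h3 : (fun w => E (Nat.nth (fun v => E u v) k) w) = fun w => E u w := by
      funext w
      exact propext ⟨fun h4 => h.tr _ _ _ h2 h4, fun h4 => h.tr _ _ _ (h.symm _ _ h2) h4⟩
    show Nat.count (fun w => E (Nat.nth (fun v => E u v) k) w) _ = k
    simp only [h3]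
    exact Nat.count_nth_of_infinite h1 k
  obtain ⟨r, hr1, hr2⟩ := inj_choice (fun v : ℕ => Ioo (d (s v)).1.1 (d (s v)).1.2)
    fun v => Ioo_infinite (d (s v)).2
  refine ⟨r, hr1, fun u a b hab => ?_⟩
  obtain ⟨k, hk⟩ := hd ⟨(a, b), hab⟩
  obtain ⟨v, hv1, hv2⟩ := hs u k
  have := hr2 v
  rw [hv2, hk] at this
  exact ⟨v, hv1, this.1, this.2⟩

/-- links -/
structure Lk (pos : ℕ → ℚ) (B : ι → ℕ → ℕ → Prop) where
  u : ℕ
  v : ℕ
  i : ι
  a : ℚ
  b : ℚ
  c : ℚ
  d : ℚ
  huv : pos u < pos v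
  hB : B i u v
  hab : a < b
  hcd : c < d

variable {pos : ℕ → ℚ}

instance [Countable ι] : Countable (Lk pos B) := by
  have h : Function.Injective fun l : Lk pos B => (l.u, l.v, l.i, l.a, l.b, l.c, l.d) := by
    rintro ⟨⟩ ⟨⟩ h
    simp only [Prod.mk.injEq] at h
    obtain ⟨rfl, rfl, rfl, rfl, rfl, rfl, rfl⟩ := h
    rfl
  exact h.countable

/-- the points -/
abbrev X (pos : ℕ → ℚ) (B : ι → ℕ → ℕ → Prop) : Type := ℕ ⊕ (Lk pos B × Bool)

/-- the piece of a point -/
def pc' : X pos B → ℕ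
  | .inl u => u
  | .inr (l, s) => if s = true then l.v else l.u

/-- the position in the piece -/
def ht (r : Lk pos B × Bool → ℚ) : X pos B → WithBot ℚ
  | .inl _ => ⊥
  | .inr l => (r l : WithBot ℚ)

def key (r : Lk pos B × Bool → ℚ) (x : X pos B) : ℚ ×ₗ WithBot ℚ := toLex (pos (pc' x), ht r x)

/-- the other end -/
def inv' : X pos B → X pos B
  | .inl u => .inl u
  | .inr (l, s) => .inr (l, !s)

theorem inv_inv (x : X pos B) : inv' (inv' x) = x := by
  rcases x with u | ⟨l, s⟩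
  · rfl
  · simp [inv']

variable {r : Lk pos B × Bool → ℚ}

theorem key_lt {x y : X pos B} : key r x < key r y ↔
    pos (pc' x) < pos (pc' y) ∨ (pos (pc' x) = pos (pc' y) ∧ ht r x < ht r y) :=
  Prod.Lex.toLex_lt_toLex

theorem key_inj (hp : Function.Injective pos) (hr : Function.Injective r) :
    Function.Injective (key (B := B) r) := by
  intro x y h
  have h1 : (pos (pc' x), ht r x) = (pos (pc' y), ht r y) := toLex.injective h
  rw [Prod.mk.injEq] at h1
  obtain ⟨h2, h3⟩ := h1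
  rcases x with u | l <;> rcases y with v | l'
  · exact congrArg _ (hp h2)
  · exact absurd h3 (WithBot.bot_ne_coe)
  · exact absurd h3 (WithBot.coe_ne_bot)
  · exact congrArg _ (hr (WithBot.coe_injective h3))

/-- **Existence.** -/
theorem exists_G1 [Countable ι] (h : Base E B e un) : ∃ (lt F : ℕ → ℕ → Prop) (C : ι → ℕ → Prop)
    (π : ℕ → ℕ), G1 lt F C e un ∧ Function.Injective π ∧ (∀ a, F a a ↔ ∃ u, π u = a) ∧
      (∀ u v, Eq' lt F C e (π u) (π v) ↔ E u v) ∧
      ∀ i u v, lt (π u) (π v) → (Kd lt F C i (π u) (π v) ↔ B i u v) := by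
  classical
  obtain ⟨pos, hp, hd⟩ := exists_pos h
  obtain ⟨r, hr1, hr2⟩ := inj_choice (fun t : Lk pos B × Bool =>
    if t.2 = true then Ioo t.1.c t.1.d else Ioo t.1.a t.1.b) (by
      rintro ⟨l, s⟩
      cases s
      · simpa using Ioo_infinite l.hab
      · simpa using Ioo_infinite l.hcd)
  have hrf : ∀ l, r (l, false) ∈ Ioo l.a l.b := fun l => by simpa using hr2 (l, false)
  have hrt : ∀ l, r (l, true) ∈ Ioo l.c l.d := fun l => by simpa using hr2 (l, true)
  have hk := key_inj (B := B) hp hr1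
  obtain ⟨K⟩ : Nonempty (ℕ ≃ X pos B) := nonempty_equiv_of_countable
  let lt : ℕ → ℕ → Prop := fun m n => key r (K m) < key r (K n)
  let F : ℕ → ℕ → Prop := fun m n => inv' (K m) = K n
  let C : ι → ℕ → Prop := fun i m => ∃ t, K m = Sum.inr t ∧ t.1.i = i
  have hlin : SLin lt := ⟨fun x => lt_irrefl _, fun x y z h1 h2 => lt_trans h1 h2, fun x y => by
    rcases lt_trichotomy (key r (K x)) (key r (K y)) with h1 | h1 | h1
    · exact Or.inr (Or.inl h1)
    · exact Or.inl (K.injective (hk h1))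
    · exact Or.inr (Or.inr h1)⟩
  have hinv : Invo F := ⟨fun x => ⟨K.symm (inv' (K x)), by simp [F]⟩,
    fun x y z h1 h2 => K.injective (h1.symm.trans h2), fun x y h1 => by
      show inv' (K y) = K x
      rw [← (show inv' (K x) = K y from h1), inv_inv]⟩
  have hmk : ∀ m, F m m ↔ ∃ u, K m = Sum.inl u := by
    intro m
    show inv' (K m) = K m ↔ _
    rcases K m with u | ⟨l, s⟩
    · exact ⟨fun _ => ⟨u, rfl⟩, fun _ => rfl⟩
    · constructor
      · intro h1
        simp only [inv', Sum.inr.injEq, Prod.mk.injEq, true_and] at h1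
        cases s <;> simp at h1
      · rintro ⟨u, h1⟩
        exact absurd h1 (by simp)
  have hpc : ∀ a p, Pc lt F a p ↔ K a = Sum.inl (pc' (K p)) := by
    intro a p
    constructor
    · rintro ⟨h1, h2, h3⟩
      obtain ⟨u, hu⟩ := (hmk a).1 h1
      have h4 : pos u ≤ pos (pc' (K p)) := by
        rcases h2 with rfl | h2
        · rw [hu]; exact le_refl _
        · rcases key_lt.1 h2 with h5 | h5
          · rw [hu] at h5; exact h5.le
          · rw [hu] at h5; exact h5.1.le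
      rcases h4.lt_or_eq with h5 | h5
      · exfalso
        let q := K.symm (Sum.inl (pc' (K p)))
        have hq : K q = Sum.inl (pc' (K p)) := K.apply_symm_apply _
        refine h3 q ?_ ?_ ((hmk q).2 ⟨_, hq⟩)
        · refine key_lt.2 (Or.inl ?_)
          rw [hu, hq]
          exact h5
        · rcases hKp : K p with v | t
          · left
            apply K.injective
            rw [hq, hKp]
            rfl
          · right
            refine key_lt.2 (Or.inr ⟨?_, ?_⟩)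
            · rw [hq]
              rfl
            · rw [hq, hKp]
              exact WithBot.bot_lt_coe _
      · rw [hu, hp h5]
    · intro h1
      refine ⟨(hmk a).2 ⟨_, h1⟩, ?_, ?_⟩
      · rcases hKp : K p with v | t
        · left
          apply K.injective
          rw [h1, hKp]
          rfl
        · right
          refine key_lt.2 (Or.inr ⟨?_, ?_⟩)
          · rw [h1]
            rfl
          · rw [h1, hKp]
            exact WithBot.bot_lt_coe _
      · intro q h2 h3 h4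
        obtain ⟨w, hw⟩ := (hmk q).1 h4
        have h5 : pos (pc' (K p)) < pos w := by
          rcases key_lt.1 h2 with h5 | h5
          · rw [h1, hw] at h5; exact h5
          · rw [h1, hw] at h5
            exact absurd h5.2 (lt_irrefl _)
        rcases h3 with rfl | h3
        · rw [hw] at h5
          exact lt_irrefl _ h5
        · rcases key_lt.1 h3 with h6 | h6
          · rw [hw] at h6
            exact lt_asymm h5 h6
          · rw [hw] at h6
            exact absurd h6.1 h5.ne'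
  let π : ℕ → ℕ := fun u => K.symm (Sum.inl u)
  have hπ : ∀ u, K (π u) = Sum.inl u := fun u => K.apply_symm_apply _
  have hmk2 : ∀ a, F a a ↔ ∃ u, π u = a := by
    intro a
    rw [hmk]
    refine exists_congr fun u => ?_
    constructor
    · intro h1
      apply K.injective
      rw [hπ, h1]
    · rintro rfl
      exact hπ u
  have hltm : ∀ u v, lt (π u) (π v) ↔ pos u < pos v := by
    intro u v
    show key r _ < key r _ ↔ _
    rw [key_lt, hπ, hπ]
    constructor
    · rintro (h1 | h1)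
      · exact h1
      · exact absurd h1.2 (lt_irrefl _)
    · exact fun h1 => Or.inl h1
  have hkd : ∀ i u v, Kd lt F C i (π u) (π v) ↔
      (pos u < pos v ∧ B i u v) ∨ (pos v < pos u ∧ B i v u) := by
    intro i u v
    constructor
    · rintro ⟨p, q, ⟨⟨l, s⟩, h1, rfl⟩, h2, h3, h4⟩
      rw [hpc, hπ] at h3 h4
      have h5 : inv' (K p) = K q := h2
      rw [← h5] at h4
      rw [h1] at h3 h4
      simp only [pc', inv', Sum.inl.injEq] at h3 h4
      cases s
      · simp only [Bool.false_eq_true, if_false, Bool.not_false, if_true] at h3 h4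
        rw [h3, h4]
        exact Or.inl ⟨l.huv, l.hB⟩
      · simp only [if_true, Bool.not_true, Bool.false_eq_true, if_false] at h3 h4
        rw [h3, h4]
        exact Or.inr ⟨l.huv, l.hB⟩
    · rintro (⟨h1, h2⟩ | ⟨h1, h2⟩)
      · let l : Lk pos B := ⟨u, v, i, 0, 1, 0, 1, h1, h2, by norm_num, by norm_num⟩
        refine ⟨K.symm (Sum.inr (l, false)), K.symm (Sum.inr (l, true)), ⟨(l, false), by simp, rfl⟩,
          ?_, ?_, ?_⟩
        · show inv' (K _) = K _
          simp [inv']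
        · rw [hpc, hπ]
          simp [pc', l]
        · rw [hpc, hπ]
          simp [pc', l]
      · let l : Lk pos B := ⟨v, u, i, 0, 1, 0, 1, h1, h2, by norm_num, by norm_num⟩
        refine ⟨K.symm (Sum.inr (l, true)), K.symm (Sum.inr (l, false)), ⟨(l, true), by simp, rfl⟩,
          ?_, ?_, ?_⟩
        · show inv' (K _) = K _
          simp [inv']
        · rw [hpc, hπ]
          simp [pc', l]
        · rw [hpc, hπ]
          simp [pc', l]
  have heq : ∀ u v, Eq' lt F C e (π u) (π v) ↔ E u v := by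
    intro u v
    unfold Eq'
    rw [hkd, h.be, h.be]
    constructor
    · rintro (h1 | h1 | h1)
      · have : u = v := by
          have h2 := congrArg K h1
          rw [hπ, hπ] at h2
          exact Sum.inl.inj h2
        rw [this]
        exact h.refl v
      · exact h1.2
      · exact h.symm _ _ h1.2
    · intro h1
      rcases lt_trichotomy (pos u) (pos v) with h2 | h2 | h2
      · exact Or.inr (Or.inl ⟨h2, h1⟩)
      · rw [hp h2]
        exact Or.inl rfl
      · exact Or.inr (Or.inr ⟨h2, h.symm _ _ h1⟩)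
  have hkd2 : ∀ i u v, lt (π u) (π v) → (Kd lt F C i (π u) (π v) ↔ B i u v) := by
    intro i u v h1
    rw [hltm] at h1
    rw [hkd]
    constructor
    · rintro (h2 | h2)
      · exact h2.2
      · exact absurd h2.1 (lt_asymm h1)
    · exact fun h2 => Or.inl ⟨h1, h2⟩
  have hπi : Function.Injective π := by
    intro u v huv
    have h2 := congrArg K huv
    rw [hπ, hπ] at h2
    exact Sum.inl.inj h2
  -- intervals in a piece
  have hint : ∀ u p q, Pc lt F (π u) p → lt p q → ∃ a b : ℚ, a < b ∧ ∀ x, pc' (K x) = u →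
      (∃ y ∈ Ioo a b, ht r (K x) = (y : WithBot ℚ)) → lt p x ∧ lt x q := by
    intro u p q h1 h2
    rw [hpc, hπ] at h1
    have h1' : pc' (K p) = u := (Sum.inl.inj h1).symm
    -- lower bound
    have hlow : ∃ a : ℚ, ht r (K p) ≤ (a : WithBot ℚ) ∧
        ∀ b : ℚ, ht r (K p) < (b : WithBot ℚ) → (ht r (K p) = ⊥ ∨ a < b) := by
      rcases hKp : K p with v | t
      · exact ⟨0, bot_le, fun b _ => Or.inl rfl⟩
      · exact ⟨r t, le_refl _, fun b hb => Or.inr (WithBot.coe_lt_coe.1 hb)⟩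
    -- upper bound
    rcases key_lt.1 h2 with h3 | ⟨h3, h4⟩
    · obtain ⟨a, ha, -⟩ := hlow
      refine ⟨a, a + 1, by linarith, fun x hx ⟨y, hy1, hy2⟩ => ⟨?_, ?_⟩⟩
      · refine key_lt.2 (Or.inr ⟨by rw [hx, h1'], ?_⟩)
        rw [hy2]
        exact lt_of_le_of_lt ha (WithBot.coe_lt_coe.2 hy1.1)
      · refine key_lt.2 (Or.inl ?_)
        rw [hx, ← h1']
        exact h3
    · have h5 : ∃ b : ℚ, ht r (K q) = (b : WithBot ℚ) := by
        rcases hKq : K q with v | t
        · rw [hKq] at h4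
          exact absurd h4 not_lt_bot
        · exact ⟨r t, rfl⟩
      obtain ⟨b, hb⟩ := h5
      rw [hb] at h4
      obtain ⟨a, ha, hab⟩ : ∃ a : ℚ, ht r (K p) ≤ (a : WithBot ℚ) ∧ a < b := by
        obtain ⟨a, ha1, ha2⟩ := hlow
        rcases ha2 b h4 with h6 | h6
        · exact ⟨b - 1, by rw [h6]; exact bot_le, by linarith⟩
        · exact ⟨a, ha1, h6⟩
      refine ⟨a, b, hab, fun x hx ⟨y, hy1, hy2⟩ => ⟨?_, ?_⟩⟩
      · refine key_lt.2 (Or.inr ⟨by rw [hx, h1'], ?_⟩)
        rw [hy2]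
        exact lt_of_le_of_lt ha (WithBot.coe_lt_coe.2 hy1.1)
      · refine key_lt.2 (Or.inr ⟨?_, ?_⟩)
        · rw [hx, ← h1', h3]
        · rw [hy2, hb]
          exact WithBot.coe_lt_coe.2 hy1.2
  refine ⟨lt, F, C, π, ⟨hlin, hinv, ?_, ?_, ?_, ?_, ?_, ?_, ?_, ?_, ?_, ?_, ?_, ?_, ?_, ?_⟩, hπi, hmk2,
    heq, hkd2⟩
  · rintro i p h1 ⟨t, h2, -⟩
    obtain ⟨u, hu⟩ := (hmk p).1 h1
    rw [hu] at h2
    exact absurd h2 (by simp)
  · intro p h1
    rcases hKp : K p with u | t
    · exact absurd ((hmk p).2 ⟨u, hKp⟩) h1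
    · exact ⟨t.1.i, t, hKp, rfl⟩
  · rintro i j p ⟨t, h1, rfl⟩ ⟨t', h2, rfl⟩
    rw [h1] at h2
    rw [Sum.inr.inj h2]
  · rintro i p q ⟨⟨l, s⟩, h1, rfl⟩ h2
    refine ⟨(l, !s), ?_, rfl⟩
    rw [← (show inv' (K p) = K q from h2), h1]
    rfl
  · intro p
    exact ⟨π (pc' (K p)), (hpc _ _).2 (hπ _)⟩
  · intro p q a h1 h2 h3 h4
    rw [hpc] at h3 h4
    rw [h3, ← (show inv' (K p) = K q from h1)] at h4
    rcases hKp : K p with u | ⟨l, s⟩
    · exact h2 (hinv.uni _ _ _ ((hmk p).2 ⟨u, hKp⟩) h1)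
    · rw [hKp] at h4
      have h5 := Sum.inl.inj h4
      have h6 := l.huv
      cases s <;> simp [pc', inv'] at h5 <;> rw [h5] at h6 <;> exact lt_irrefl _ h6
  · intro a b c ha hb hc h1 h2
    obtain ⟨u, rfl⟩ := (hmk2 a).1 ha
    obtain ⟨v, rfl⟩ := (hmk2 b).1 hb
    obtain ⟨w, rfl⟩ := (hmk2 c).1 hc
    rw [heq] at *
    exact h.tr _ _ _ h1 h2
  · intro a b c ha hb hc h1
    obtain ⟨u, rfl⟩ := (hmk2 a).1 ha
    obtain ⟨v, rfl⟩ := (hmk2 b).1 hb
    obtain ⟨w, rfl⟩ := (hmk2 c).1 hc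
    rw [hltm] at h1
    obtain ⟨x, h2, h3, h4⟩ := hd w _ _ h1
    exact ⟨π x, (hmk2 _).2 ⟨x, rfl⟩, (heq _ _).2 h2, (hltm _ _).2 h3, (hltm _ _).2 h4⟩
  · intro a c ha hc
    obtain ⟨u, rfl⟩ := (hmk2 a).1 ha
    obtain ⟨w, rfl⟩ := (hmk2 c).1 hc
    obtain ⟨x, h2, h3, -⟩ := hd w (pos u) (pos u + 1) (by linarith)
    exact ⟨π x, (hmk2 _).2 ⟨x, rfl⟩, (heq _ _).2 h2, (hltm _ _).2 h3⟩
  · intro a c ha hc
    obtain ⟨u, rfl⟩ := (hmk2 a).1 ha
    obtain ⟨w, rfl⟩ := (hmk2 c).1 hc
    obtain ⟨x, h2, -, h3⟩ := hd w (pos u - 1) (pos u) (by linarith)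
    exact ⟨π x, (hmk2 _).2 ⟨x, rfl⟩, (heq _ _).2 h2, (hltm _ _).2 h3⟩
  · intro i a b a' b' ha hb ha' hb' h1 h2 h3 h4 h5
    obtain ⟨u, rfl⟩ := (hmk2 a).1 ha
    obtain ⟨v, rfl⟩ := (hmk2 b).1 hb
    obtain ⟨u', rfl⟩ := (hmk2 a').1 ha'
    obtain ⟨v', rfl⟩ := (hmk2 b').1 hb'
    rw [heq] at h3 h4
    rw [hkd2 i _ _ h1] at h5
    rw [hkd2 i _ _ h2]
    exact h.ivt i _ _ _ _ h3 h4 h5
  · intro i a b b' hi ha hb hb' h1 h2 h3
    obtain ⟨u, rfl⟩ := (hmk2 a).1 ha
    obtain ⟨v, rfl⟩ := (hmk2 b).1 hb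
    obtain ⟨v', rfl⟩ := (hmk2 b').1 hb'
    rw [hkd2 i _ _ h1] at h3
    rw [hkd2 i _ _ h2]
    exact h.una i _ _ _ hi h3
  · intro i a b p q s t hab h1 h2 h3 h4 h5
    obtain ⟨u, rfl⟩ := (hmk2 a).1 h2.1
    obtain ⟨v, rfl⟩ := (hmk2 b).1 h4.1
    obtain ⟨a1, b1, hab1, k1⟩ := hint u p q h2 h3
    obtain ⟨a2, b2, hab2, k2⟩ := hint v s t h4 h5
    rcases (hkd i u v).1 h1 with ⟨h6, h7⟩ | ⟨h6, h7⟩
    · let l : Lk pos B := ⟨u, v, i, a1, b1, a2, b2, h6, h7, hab1, hab2⟩
      have e1 : K (K.symm (Sum.inr (l, false))) = Sum.inr (l, false) := K.apply_symm_apply _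
      have e2 : K (K.symm (Sum.inr (l, true))) = Sum.inr (l, true) := K.apply_symm_apply _
      obtain ⟨m1, m2⟩ := k1 (K.symm (Sum.inr (l, false))) (by rw [e1]; simp [pc', l])
        ⟨_, hrf l, by rw [e1]; rfl⟩
      obtain ⟨m3, m4⟩ := k2 (K.symm (Sum.inr (l, true))) (by rw [e2]; simp [pc', l])
        ⟨_, hrt l, by rw [e2]; rfl⟩
      refine ⟨_, _, ⟨(l, false), e1, rfl⟩, ?_, ?_, ?_, m1, m2, m3, m4⟩
      · show inv' (K _) = K _
        rw [e1, e2]
        simp [inv']
      · rw [hpc, hπ, e1]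
        simp [pc', l]
      · rw [hpc, hπ, e2]
        simp [pc', l]
    · let l : Lk pos B := ⟨v, u, i, a2, b2, a1, b1, h6, h7, hab2, hab1⟩
      have e1 : K (K.symm (Sum.inr (l, false))) = Sum.inr (l, false) := K.apply_symm_apply _
      have e2 : K (K.symm (Sum.inr (l, true))) = Sum.inr (l, true) := K.apply_symm_apply _
      obtain ⟨m1, m2⟩ := k1 (K.symm (Sum.inr (l, true))) (by rw [e2]; simp [pc', l])
        ⟨_, hrt l, by rw [e2]; rfl⟩
      obtain ⟨m3, m4⟩ := k2 (K.symm (Sum.inr (l, false))) (by rw [e1]; simp [pc', l])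
        ⟨_, hrf l, by rw [e1]; rfl⟩
      refine ⟨_, _, ⟨(l, true), e2, rfl⟩, ?_, ?_, ?_, m1, m2, m3, m4⟩
      · show inv' (K _) = K _
        rw [e1, e2]
        simp [inv']
      · rw [hpc, hπ, e2]
        simp [pc', l]
      · rw [hpc, hπ, e1]
        simp [pc', l]
  · intro m
    obtain ⟨X, hX⟩ := h.inf m
    refine ⟨fun i => π (X i), fun i => (hmk2 _).2 ⟨_, rfl⟩, fun i i' h1 => ?_⟩
    exact hX i i' ((heq _ _).1 h1)

end

end Pool.Agent.U97.TLO
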