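import Pool.Agent.U97.TLO.Exi
import Pool.Agent.W889.FO.StB3

set_option autoImplicit false

/-!
The interpretation in linear orders with an involution and coloured links.
-/

namespace Pool.Agent.U97.TLO

open FirstOrder FirstOrder.Language
open Pool.Agent.W889.FO

/-- colours of links -/
inductive Ki
  | e | D | C | M | fs | sn | sc
  deriving DecidableEq

instance : Finite Ki := by
  refine Finite.of_surjective (fun n : Fin 7 => match n with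
    | 0 => Ki.e | 1 => Ki.D | 2 => Ki.C | 3 => Ki.M | 4 => Ki.fs | 5 => Ki.sn | 6 => Ki.sc) ?_
  intro k
  cases k
  · exact ⟨0, rfl⟩
  · exact ⟨1, rfl⟩
  · exact ⟨2, rfl⟩
  · exact ⟨3, rfl⟩
  · exact ⟨4, rfl⟩
  · exact ⟨5, rfl⟩
  · exact ⟨6, rfl⟩

/-- the unary ones -/
def Un (k : Ki) : Prop := k = Ki.D ∨ k = Ki.C ∨ k = Ki.M

/-- symbols: order, involution, colours -/
inductive RC : ℕ → Type
  | lt : RC 2
  | F : RC 2
  | C (k : Ki) : RC 1

def LC : FirstOrder.Language.{0, 0} := ⟨fun _ => Empty, RC⟩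

instance : LC.IsRelational := fun _ => inferInstanceAs (IsEmpty Empty)

/-- pairs -/
def pr {A : Type} (a b : A) : Fin 2 → A := fun m => if m = 0 then a else b

def ltC (S : LC.Structure ℕ) (a b : ℕ) : Prop := @Structure.RelMap LC ℕ S _ RC.lt (pr a b)
def FC (S : LC.Structure ℕ) (a b : ℕ) : Prop := @Structure.RelMap LC ℕ S _ RC.F (pr a b)
def CC (S : LC.Structure ℕ) (k : Ki) (a : ℕ) : Prop :=
  @Structure.RelMap LC ℕ S _ (RC.C k) (fun _ => a)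

section fd

variable {L : FirstOrder.Language.{0, 0}} {V : L.Structure ℕ → Prop} {α : Type}

theorem fd_pr (Q : L.Relations 2) (i j : α) :
    FD V (fun S v => @Structure.RelMap L ℕ S _ Q (pr (v i) (v j))) := by
  refine (FD.rel (W := V) (L := L) Q (fun m => if m = 0 then i else j)).congr fun S _ v => ?_
  have e : (fun m : Fin 2 => v (if m = 0 then i else j)) = pr (v i) (v j) := by
    funext m
    unfold pr
    split <;> rfl
  show @Structure.RelMap L ℕ S _ Q (fun m => v (if m = 0 then i else j)) ↔ _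
  rw [e]

theorem axN {n : ℕ} {P : L.Structure ℕ → (Fin n → ℕ) → Prop}
    (h : FD (fun _ => True) (fun S (w : Fin n → ℕ) => P S w)) : Ax (fun S => ∀ w, P S w) :=
  Ax.of (FD.all (P := fun S _ w => P S w) (h.sub Sum.inr))

end fd

section fdo

variable {L : FirstOrder.Language.{0, 0}} {V : L.Structure ℕ → Prop} {α : Type} {ι : Type}
  {lt F : L.Structure ℕ → ℕ → ℕ → Prop} {C : L.Structure ℕ → ι → ℕ → Prop}

theorem fd_Pc (hlt : ∀ {α : Type} (i j : α), FD V (fun S v => lt S (v i) (v j)))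
    (hF : ∀ {α : Type} (i j : α), FD V (fun S v => F S (v i) (v j))) (i j : α) :
    FD V (fun S v => Pc (lt S) (F S) (v i) (v j)) := by
  refine (hF i i).and (((FD.eq i j).or (hlt i j)).and ?_)
  exact StA.FD.all1 (P := fun S v q => lt S (v i) q → (q = v j ∨ lt S q (v j)) → ¬ F S q q)
    ((hlt _ _).imp (((FD.eq _ _).or (hlt _ _)).imp (hF _ _).not))

theorem fd_Kd (hlt : ∀ {α : Type} (i j : α), FD V (fun S v => lt S (v i) (v j)))
    (hF : ∀ {α : Type} (i j : α), FD V (fun S v => F S (v i) (v j)))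
    (hC : ∀ {α : Type} (k : ι) (i : α), FD V (fun S v => C S k (v i))) (k : ι) (i j : α) :
    FD V (fun S v => Kd (lt S) (F S) (C S) k (v i) (v j)) := by
  refine StA.FD.ex1 (P := fun S v p => ∃ q, C S k p ∧ F S p q ∧ Pc (lt S) (F S) (v i) p ∧
    Pc (lt S) (F S) (v j) q) ?_
  exact StA.FD.ex1 (P := fun S w q => C S k (w (Sum.inr ())) ∧ F S (w (Sum.inr ())) q ∧
    Pc (lt S) (F S) (w (Sum.inl i)) (w (Sum.inr ())) ∧ Pc (lt S) (F S) (w (Sum.inl j)) q)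
    ((hC _ _).and ((hF _ _).and ((fd_Pc hlt hF _ _).and (fd_Pc hlt hF _ _))))

theorem fd_Eq (hlt : ∀ {α : Type} (i j : α), FD V (fun S v => lt S (v i) (v j)))
    (hF : ∀ {α : Type} (i j : α), FD V (fun S v => F S (v i) (v j)))
    (hC : ∀ {α : Type} (k : ι) (i : α), FD V (fun S v => C S k (v i))) (k : ι) (i j : α) :
    FD V (fun S v => Eq' (lt S) (F S) (C S) k (v i) (v j)) :=
  (FD.eq i j).or (fd_Kd hlt hF hC k i j)

end fdo

theorem fd_ltC {V : LC.Structure ℕ → Prop} {α : Type} (i j : α) :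
    FD V (fun S v => ltC S (v i) (v j)) := fd_pr (L := LC) RC.lt i j

theorem fd_FC {V : LC.Structure ℕ → Prop} {α : Type} (i j : α) :
    FD V (fun S v => FC S (v i) (v j)) := fd_pr (L := LC) RC.F i j

theorem fd_CC {V : LC.Structure ℕ → Prop} {α : Type} (k : Ki) (i : α) :
    FD V (fun S v => CC S k (v i)) := FD.rel (W := V) (L := LC) (RC.C k) (fun _ => i)

/-- the class -/
def WA (S : LC.Structure ℕ) : Prop := G1 (ltC S) (FC S) (CC S) Ki.e Un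

theorem ax_SLin {L : FirstOrder.Language.{0, 0}} {lt : L.Structure ℕ → ℕ → ℕ → Prop}
    (hlt : ∀ {α : Type} (i j : α), FD (fun _ => True) (fun S v => lt S (v i) (v j))) :
    Ax (fun S => SLin (lt S)) := by
  have h1 : Ax (fun S => ∀ w : Fin 1 → ℕ, ¬ lt S (w 0) (w 0)) := axN (hlt _ _).not
  have h2 : Ax (fun S => ∀ w : Fin 3 → ℕ, lt S (w 0) (w 1) → lt S (w 1) (w 2) →
      lt S (w 0) (w 2)) := axN ((hlt _ _).imp ((hlt _ _).imp (hlt _ _)))
  have h3 : Ax (fun S => ∀ w : Fin 2 → ℕ, w 0 = w 1 ∨ lt S (w 0) (w 1) ∨ lt S (w 1) (w 0)) :=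
    axN ((FD.eq _ _).or ((hlt _ _).or (hlt _ _)))
  refine (h1.and (h2.and h3)).congr fun S => ⟨?_, ?_⟩
  · rintro ⟨k1, k2, k3⟩
    exact ⟨fun x => k1 ![x], fun x y z => k2 ![x, y, z], fun x y => k3 ![x, y]⟩
  · rintro ⟨k1, k2, k3⟩
    exact ⟨fun w => k1 _, fun w => k2 _ _ _, fun w => k3 _ _⟩

theorem ax_Invo {L : FirstOrder.Language.{0, 0}} {F : L.Structure ℕ → ℕ → ℕ → Prop}
    (hF : ∀ {α : Type} (i j : α), FD (fun _ => True) (fun S v => F S (v i) (v j))) :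
    Ax (fun S => Invo (F S)) := by
  have h1 : Ax (fun S => ∀ w : Fin 1 → ℕ, ∃ y, F S (w 0) y) :=
    axN (StA.FD.ex1 (P := fun S w y => F S (w 0) y) (hF _ _))
  have h2 : Ax (fun S => ∀ w : Fin 3 → ℕ, F S (w 0) (w 1) → F S (w 0) (w 2) →
      w 1 = w 2) := axN ((hF _ _).imp ((hF _ _).imp (FD.eq _ _)))
  have h3 : Ax (fun S => ∀ w : Fin 2 → ℕ, F S (w 0) (w 1) → F S (w 1) (w 0)) :=
    axN ((hF _ _).imp (hF _ _))
  refine (h1.and (h2.and h3)).congr fun S => ⟨?_, ?_⟩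
  · rintro ⟨k1, k2, k3⟩
    exact ⟨fun x => k1 ![x], fun x y z => k2 ![x, y, z], fun x y => k3 ![x, y]⟩
  · rintro ⟨k1, k2, k3⟩
    exact ⟨fun w => k1 _, fun w => k2 _ _ _, fun w => k3 _ _⟩

theorem ax_WA : Ax WA := by
  have pc : ∀ {α : Type} (i j : α), FD (fun _ => True)
      (fun S v => Pc (ltC S) (FC S) (v i) (v j)) := fun i j => fd_Pc fd_ltC fd_FC i j
  have kd : ∀ {α : Type} (k : Ki) (i j : α), FD (fun _ => True)
      (fun S v => Kd (ltC S) (FC S) (CC S) k (v i) (v j)) := fun k i j =>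
    fd_Kd fd_ltC fd_FC fd_CC k i j
  have eq : ∀ {α : Type} (i j : α), FD (fun _ => True)
      (fun S v => Eq' (ltC S) (FC S) (CC S) Ki.e (v i) (v j)) := fun i j =>
    fd_Eq fd_ltC fd_FC fd_CC Ki.e i j
  have h1 := ax_SLin (lt := ltC) fun i j => fd_ltC i j
  have h2 := ax_Invo (F := FC) fun i j => fd_FC i j
  have h3 : Ax (fun S => ∀ i : Ki, ∀ w : Fin 1 → ℕ, FC S (w 0) (w 0) → ¬ CC S i (w 0)) :=
    Ax.all fun i => axN ((fd_FC _ _).imp (fd_CC _ _).not)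
  have h4 : Ax (fun S => ∀ w : Fin 1 → ℕ, ¬ FC S (w 0) (w 0) → ¬ ∀ i : Ki, ¬ CC S i (w 0)) :=
    axN ((fd_FC _ _).not.imp (FD.fin fun i => (fd_CC _ _).not).not)
  have h5 : Ax (fun S => ∀ i j : Ki, ∀ w : Fin 1 → ℕ, CC S i (w 0) → CC S j (w 0) → i = j) :=
    Ax.all fun i => Ax.all fun j => axN ((fd_CC _ _).imp ((fd_CC _ _).imp (FD.const _)))
  have h6 : Ax (fun S => ∀ i : Ki, ∀ w : Fin 2 → ℕ, CC S i (w 0) → FC S (w 0) (w 1) →
      CC S i (w 1)) := Ax.all fun i => axN ((fd_CC _ _).imp ((fd_FC _ _).imp (fd_CC _ _)))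
  have h7 : Ax (fun S => ∀ w : Fin 1 → ℕ, ∃ a, Pc (ltC S) (FC S) a (w 0)) :=
    axN (StA.FD.ex1 (P := fun S w a => Pc (ltC S) (FC S) a (w 0)) (pc _ _))
  have h8 : Ax (fun S => ∀ w : Fin 3 → ℕ, FC S (w 0) (w 1) → ¬ w 0 = w 1 →
      Pc (ltC S) (FC S) (w 2) (w 0) → ¬ Pc (ltC S) (FC S) (w 2) (w 1)) :=
    axN ((fd_FC _ _).imp ((FD.eq _ _).not.imp ((pc _ _).imp (pc _ _).not)))
  have h9 : Ax (fun S => ∀ w : Fin 3 → ℕ, FC S (w 0) (w 0) → FC S (w 1) (w 1) →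
      FC S (w 2) (w 2) → Eq' (ltC S) (FC S) (CC S) Ki.e (w 0) (w 1) →
        Eq' (ltC S) (FC S) (CC S) Ki.e (w 1) (w 2) →
          Eq' (ltC S) (FC S) (CC S) Ki.e (w 0) (w 2)) :=
    axN ((fd_FC _ _).imp ((fd_FC _ _).imp ((fd_FC _ _).imp ((eq _ _).imp ((eq _ _).imp
      (eq _ _))))))
  have h10 : Ax (fun S => ∀ w : Fin 3 → ℕ, FC S (w 0) (w 0) → FC S (w 1) (w 1) →
      FC S (w 2) (w 2) → ltC S (w 0) (w 1) → ∃ x, FC S x x ∧
        Eq' (ltC S) (FC S) (CC S) Ki.e (w 2) x ∧ ltC S (w 0) x ∧ ltC S x (w 1)) :=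
    axN ((fd_FC _ _).imp ((fd_FC _ _).imp ((fd_FC _ _).imp ((fd_ltC _ _).imp
      (StA.FD.ex1 (P := fun S w x => FC S x x ∧
        Eq' (ltC S) (FC S) (CC S) Ki.e (w 2) x ∧ ltC S (w 0) x ∧ ltC S x (w 1))
        ((fd_FC _ _).and ((eq _ _).and ((fd_ltC _ _).and (fd_ltC _ _)))))))))
  have h11 : Ax (fun S => ∀ w : Fin 2 → ℕ, FC S (w 0) (w 0) → FC S (w 1) (w 1) →
      ∃ x, FC S x x ∧ Eq' (ltC S) (FC S) (CC S) Ki.e (w 1) x ∧ ltC S (w 0) x) :=
    axN ((fd_FC _ _).imp ((fd_FC _ _).imp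
      (StA.FD.ex1 (P := fun S w x => FC S x x ∧
        Eq' (ltC S) (FC S) (CC S) Ki.e (w 1) x ∧ ltC S (w 0) x)
        ((fd_FC _ _).and ((eq _ _).and (fd_ltC _ _))))))
  have h12 : Ax (fun S => ∀ w : Fin 2 → ℕ, FC S (w 0) (w 0) → FC S (w 1) (w 1) →
      ∃ x, FC S x x ∧ Eq' (ltC S) (FC S) (CC S) Ki.e (w 1) x ∧ ltC S x (w 0)) :=
    axN ((fd_FC _ _).imp ((fd_FC _ _).imp
      (StA.FD.ex1 (P := fun S w x => FC S x x ∧
        Eq' (ltC S) (FC S) (CC S) Ki.e (w 1) x ∧ ltC S x (w 0))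
        ((fd_FC _ _).and ((eq _ _).and (fd_ltC _ _))))))
  have h13 : Ax (fun S => ∀ i : Ki, ∀ w : Fin 4 → ℕ, FC S (w 0) (w 0) → FC S (w 1) (w 1) →
      FC S (w 2) (w 2) → FC S (w 3) (w 3) → ltC S (w 0) (w 1) → ltC S (w 2) (w 3) →
      Eq' (ltC S) (FC S) (CC S) Ki.e (w 0) (w 2) → Eq' (ltC S) (FC S) (CC S) Ki.e (w 1) (w 3) →
      Kd (ltC S) (FC S) (CC S) i (w 0) (w 1) → Kd (ltC S) (FC S) (CC S) i (w 2) (w 3)) :=
    Ax.all fun i => axN ((fd_FC _ _).imp ((fd_FC _ _).imp ((fd_FC _ _).imp ((fd_FC _ _).imp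
      ((fd_ltC _ _).imp ((fd_ltC _ _).imp ((eq _ _).imp ((eq _ _).imp ((kd _ _ _).imp
        (kd _ _ _))))))))))
  have h14 : Ax (fun S => ∀ i : Ki, ∀ w : Fin 3 → ℕ, Un i → FC S (w 0) (w 0) →
      FC S (w 1) (w 1) → FC S (w 2) (w 2) → ltC S (w 0) (w 1) → ltC S (w 0) (w 2) →
      Kd (ltC S) (FC S) (CC S) i (w 0) (w 1) → Kd (ltC S) (FC S) (CC S) i (w 0) (w 2)) :=
    Ax.all fun i => axN ((FD.const _).imp ((fd_FC _ _).imp ((fd_FC _ _).imp ((fd_FC _ _).imp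
      ((fd_ltC _ _).imp ((fd_ltC _ _).imp ((kd _ _ _).imp (kd _ _ _))))))))
  have h15 : Ax (fun S => ∀ i : Ki, ∀ w : Fin 6 → ℕ, ¬ w 0 = w 1 →
      Kd (ltC S) (FC S) (CC S) i (w 0) (w 1) → Pc (ltC S) (FC S) (w 0) (w 2) →
      ltC S (w 2) (w 3) → Pc (ltC S) (FC S) (w 1) (w 4) → ltC S (w 4) (w 5) →
      ∃ x y, CC S i x ∧ FC S x y ∧ Pc (ltC S) (FC S) (w 0) x ∧ Pc (ltC S) (FC S) (w 1) y ∧
        ltC S (w 2) x ∧ ltC S x (w 3) ∧ ltC S (w 4) y ∧ ltC S y (w 5)) :=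
    Ax.all fun i => axN ((FD.eq _ _).not.imp ((kd _ _ _).imp ((pc _ _).imp ((fd_ltC _ _).imp
      ((pc _ _).imp ((fd_ltC _ _).imp
        (StA.FD.ex1 (P := fun S w x => ∃ y, CC S i x ∧ FC S x y ∧ Pc (ltC S) (FC S) (w 0) x ∧
          Pc (ltC S) (FC S) (w 1) y ∧
          ltC S (w 2) x ∧ ltC S x (w 3) ∧ ltC S (w 4) y ∧ ltC S y (w 5))
        (StA.FD.ex1 (P := fun S (w : Fin 6 ⊕ Unit → ℕ) y => CC S i (w (Sum.inr ())) ∧
          FC S (w (Sum.inr ())) y ∧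
          Pc (ltC S) (FC S) (w (Sum.inl 0)) (w (Sum.inr ())) ∧
          Pc (ltC S) (FC S) (w (Sum.inl 1)) y ∧
          ltC S (w (Sum.inl 2)) (w (Sum.inr ())) ∧ ltC S (w (Sum.inr ())) (w (Sum.inl 3)) ∧
          ltC S (w (Sum.inl 4)) y ∧ ltC S y (w (Sum.inl 5)))
          ((fd_CC _ _).and ((fd_FC _ _).and ((pc _ _).and ((pc _ _).and ((fd_ltC _ _).and
            ((fd_ltC _ _).and ((fd_ltC _ _).and (fd_ltC _ _))))))))))))))))
  have h16 : Ax (fun S => ∀ m : ℕ, ∃ X : Fin m → ℕ, (∀ i, FC S (X i) (X i)) ∧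
      ∀ i i', Eq' (ltC S) (FC S) (CC S) Ki.e (X i) (X i') → i = i') :=
    Ax.all fun m => Ax.of (FD.ex (P := fun S _ (X : Fin m → ℕ) => (∀ i, FC S (X i) (X i)) ∧
      ∀ i i', Eq' (ltC S) (FC S) (CC S) Ki.e (X i) (X i') → i = i')
      ((FD.fin fun i => fd_FC _ _).and (FD.fin fun i => FD.fin fun i' =>
        (eq _ _).imp (FD.const _))))
  refine (h1.and (h2.and (h3.and (h4.and (h5.and (h6.and (h7.and (h8.and (h9.and (h10.and
    (h11.and (h12.and (h13.and (h14.and (h15.and h16))))))))))))))).congr fun S => ⟨?_, ?_⟩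
  · rintro ⟨k1, k2, k3, k4, k5, k6, k7, k8, k9, k10, k11, k12, k13, k14, k15, k16⟩
    refine ⟨k1, k2, fun i p => k3 i ![p], fun p h => ?_, fun i j p => k5 i j ![p],
      fun i p q => k6 i ![p, q], fun p => k7 ![p], fun p q a => k8 ![p, q, a],
      fun a b c => k9 ![a, b, c], fun a b c => k10 ![a, b, c], fun a c => k11 ![a, c],
      fun a c => k12 ![a, c], fun i a b a' b' => k13 i ![a, b, a', b'],
      fun i a b b' => k14 i ![a, b, b'], fun i a b p q r s => k15 i ![a, b, p, q, r, s], k16⟩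
    have := k4 ![p] h
    push Not at this
    exact this
  · rintro ⟨k1, k2, k3, k4, k5, k6, k7, k8, k9, k10, k11, k12, k13, k14, k15, k16⟩
    refine ⟨k1, k2, fun i w => k3 i _, fun w h => ?_, fun i j w => k5 i j _,
      fun i w => k6 i _ _, fun w => k7 _, fun w => k8 _ _ _, fun w => k9 _ _ _,
      fun w => k10 _ _ _, fun w => k11 _ _, fun w => k12 _ _, fun i w => k13 i _ _ _ _,
      fun i w => k14 i _ _ _, fun i w => k15 i _ _ _ _ _ _, k16⟩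
    push Not
    exact k4 _ h

end Pool.Agent.U97.TLO
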