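import Pool.Agent.U97.TLO.ItpA

set_option autoImplicit false

/-!
The interpretation in linear orders with an involution and coloured links.
-/

namespace Pool.Agent.U97.TLO

open FirstOrder FirstOrder.Language
open Pool.Agent.W889.FO
open Pool.Agent.W889.VC (BP)

section BB

variable {ι : Type} {lt F : ℕ → ℕ → Prop} {C : ι → ℕ → Prop} {e : ι} {un : ι → Prop}

/-- the relations of the classes -/
def BB (lt F : ℕ → ℕ → Prop) (C : ι → ℕ → Prop) (e i : ι) (a b : ℕ) : Prop :=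
  ∃ b', F b' b' ∧ lt a b' ∧ Eq' lt F C e b b' ∧ Kd lt F C i a b'

theorem bb_iff (h : G1 lt F C e un) {i : ι} {a b : ℕ} (ha : F a a) (hb : F b b) (hab : lt a b) :
    Kd lt F C i a b ↔ BB lt F C e i a b := by
  constructor
  · intro h1
    exact ⟨b, hb, hab, Or.inl rfl, h1⟩
  · rintro ⟨b', h1, h2, h3, h4⟩
    exact h.ivt i a b' a b ha h1 ha hb h2 hab (Or.inl rfl) (eq_symm h h3) h4

theorem bb_inv (h : G1 lt F C e un) {i : ι} {a b a' b' : ℕ} (ha : F a a) (hb : F b b)
    (ha' : F a' a') (hb' : F b' b') (h1 : Eq' lt F C e a a') (h2 : Eq' lt F C e b b')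
    (h3 : BB lt F C e i a b) : BB lt F C e i a' b' := by
  obtain ⟨c, k1, k2, k3, k4⟩ := h3
  obtain ⟨c', l1, l2, l3⟩ := h.d2 a' b' ha' hb'
  refine ⟨c', l1, l3, l2, h.ivt i a c a' c' ha k1 ha' l1 k2 l3 h1 ?_ k4⟩
  exact h.etr _ _ _ k1 hb l1 (eq_symm h k3) (h.etr _ _ _ hb hb' l1 h2 l2)

theorem bb_un (h : G1 lt F C e un) {i : ι} (hi : un i) {a b : ℕ} (ha : F a a) (hb : F b b)
    (hab : lt a b) : Kd lt F C i a b ↔ BB lt F C e i a a := by
  constructor
  · intro h1
    obtain ⟨c, l1, l2, l3⟩ := h.d2 a a ha ha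
    exact ⟨c, l1, l3, l2, h.una i a b c hi ha hb l1 hab l3 h1⟩
  · rintro ⟨b', h1, h2, h3, h4⟩
    exact h.una i a b' b hi ha h1 hb h2 hab h4

end BB

open StB (RB)

/-- the colour of a symbol -/
def kR : ∀ {n : ℕ}, RB n → Ki
  | _, .D => .D
  | _, .C => .C
  | _, .M => .M
  | _, .fs => .fs
  | _, .sn => .sn
  | _, .sc => .sc

/-- the first index -/
def fi : ∀ {n : ℕ}, RB n → Fin n
  | _, .D => 0
  | _, .C => 0
  | _, .M => 0
  | _, .fs => 0
  | _, .sn => 0
  | _, .sc => 0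

/-- the last index -/
def la : ∀ {n : ℕ}, RB n → Fin n
  | _, .D => 0
  | _, .C => 0
  | _, .M => 0
  | _, .fs => 1
  | _, .sn => 1
  | _, .sc => 1

theorem kR_inj {n m : ℕ} (R : RB n) (R' : RB m) (h : kR R = kR R') :
    (⟨n, R⟩ : Σ n, RB n) = ⟨m, R'⟩ := by
  cases R <;> cases R' <;> first | rfl | (exact absurd h (by simp [kR]))

theorem kR_ne {n : ℕ} (R : RB n) : kR R ≠ Ki.e := by
  cases R <;> simp [kR]

theorem vec_eq {A : Type} {n : ℕ} (R : RB n) (w : Fin n → A) :
    w = fun j : Fin n => if (j : ℕ) = 0 then w (fi R) else w (la R) := by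
  cases R <;> (funext j; fin_cases j <;> rfl)

/-- the relations -/
def relB {n : ℕ} (R : RB n) (S : LC.Structure ℕ) (w : Fin n → ℕ) : Prop :=
  BB (ltC S) (FC S) (CC S) Ki.e (kR R) (w (fi R)) (w (la R))

/-- the interpreted relations -/
def relA : ∀ {n : ℕ}, (TL 0 StB.LB).Relations n → LC.Structure ℕ → (Fin n → ℕ) → Prop
  | _, TR.eqv, S, v => Eq' (ltC S) (FC S) (CC S) Ki.e
      (bl (k := 0) (n := 2) v 0 0) (bl (k := 0) (n := 2) v 1 0)
  | _, TR.rel R, S, v => relB R S (fun j => bl v j 0)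

theorem fd_BB {V : LC.Structure ℕ → Prop} {α : Type} (k : Ki) (i j : α) :
    FD V (fun S v => BB (ltC S) (FC S) (CC S) Ki.e k (v i) (v j)) := by
  refine StA.FD.ex1 (P := fun S v b => FC S b b ∧ ltC S (v i) b ∧
    Eq' (ltC S) (FC S) (CC S) Ki.e (v j) b ∧ Kd (ltC S) (FC S) (CC S) k (v i) b) ?_
  exact (fd_FC _ _).and ((fd_ltC _ _).and ((fd_Eq fd_ltC fd_FC fd_CC _ _ _).and
    (fd_Kd fd_ltC fd_FC fd_CC _ _ _)))

/-- the interpretation -/
def itpA : Itp (TL 0 StB.LB) LC where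
  W := WA
  axW := ax_WA
  dom := fun S u => FC S u u
  rel := relA
  fdom := fd_FC _ _
  frel := by
    intro n R
    cases R with
    | eqv => exact fd_Eq fd_ltC fd_FC fd_CC _ _ _
    | rel R => exact fd_BB _ _ _
  inf := by
    intro S hS N
    by_contra hcon
    push Not at hcon
    obtain ⟨X, h1, h2⟩ := hS.inf (N + 1)
    have h4 : ∀ i, X i < N := fun i => by
      by_contra hlt
      exact hcon (X i) (not_lt.1 hlt) (h1 i)
    have h5 : Function.Injective fun i => (⟨X i, h4 i⟩ : Fin N) := by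
      intro i i' hii
      have h6 : X i = X i' := congrArg Fin.val hii
      exact h2 i i' (Or.inl h6)
    have := Fintype.card_le_of_injective _ h5
    simp at this

theorem rel_eqv (S : LC.Structure ℕ) (a b : ℕ) :
    itpA.rel (n := 2 * (0 + 1)) (TR.eqv : TR 0 StB.LB _) S (jn (k := 0) ![fun _ => a, fun _ => b]) ↔
      Eq' (ltC S) (FC S) (CC S) Ki.e a b := by
  show Eq' (ltC S) (FC S) (CC S) Ki.e _ _ ↔ _
  rw [bl_jn]
  rfl

theorem rel_rel (S : LC.Structure ℕ) {n : ℕ} (R : RB n) (w : Fin n → ℕ) :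
    itpA.rel (n := n * (0 + 1)) (TR.rel (k := 0) (L := StB.LB) R) S (jn fun j _ => w j) ↔
      relB R S w := by
  show relB R S (fun j => bl (k := 0) (jn (k := 0) fun j _ => w j) j 0) ↔ _
  rw [bl_jn]

theorem upA {S S' : LC.Structure ℕ} (h : WA S) (h' : WA S')
    (π : {u // FC S u u} ≃ {u // FC S' u u})
    (hπ : ∀ {n : ℕ} (R : (TL 0 StB.LB).Relations n) (u : Fin n → {u // FC S u u}),
        itpA.rel R S (fun i => u i) ↔ itpA.rel R S' (fun i => π (u i))) : SIso S S' := by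
  have he : ∀ a b : {u // FC S u u}, Eq' (ltC S) (FC S) (CC S) Ki.e a b ↔
      Eq' (ltC S') (FC S') (CC S') Ki.e (π a) (π b) := by
    intro a b
    have := hπ (n := 2 * (0 + 1)) (TR.eqv : TR 0 StB.LB _) (jn (k := 0) ![fun _ => a, fun _ => b])
    have e1 : (fun i => ((jn (k := 0) ![fun _ => a, fun _ => b] i : {u // FC S u u}) : ℕ)) =
        jn (k := 0) ![fun _ => (a : ℕ), fun _ => (b : ℕ)] := by
      rw [jn_comp]
      congr 1
      funext i j
      fin_cases i <;> rfl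
    have e2 : (fun i => ((π (jn (k := 0) ![fun _ => a, fun _ => b] i) : {u // FC S' u u}) : ℕ)) =
        jn (k := 0) ![fun _ => (π a : ℕ), fun _ => (π b : ℕ)] := by
      rw [jn_comp _ (fun x => ((π x : {u // FC S' u u}) : ℕ))]
      congr 1
      funext i j
      fin_cases i <;> rfl
    rw [e1, e2, rel_eqv, rel_eqv] at this
    exact this
  have hr : ∀ {n : ℕ} (R : RB n) (w : Fin n → {u // FC S u u}),
      relB R S (fun j => w j) ↔ relB R S' (fun j => π (w j)) := by
    intro n R w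
    have := hπ (n := n * (0 + 1)) (TR.rel (k := 0) (L := StB.LB) R) (jn fun j _ => w j)
    have e1 : (fun i => ((jn (k := 0) (fun j _ => w j) i : {u // FC S u u}) : ℕ)) =
        jn (k := 0) (fun j _ => (w j : ℕ)) := rfl
    have e2 : (fun i => ((π (jn (k := 0) (fun j _ => w j) i) : {u // FC S' u u}) : ℕ)) =
        jn (k := 0) (fun j _ => (π (w j) : ℕ)) := rfl
    rw [e1, e2, rel_rel, rel_rel] at this
    exact this
  have hM : Mch (ltC S) (FC S) (CC S) (ltC S') (FC S') (CC S') Ki.e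
      (fun a a' => ∃ ha : FC S a a, Eq' (ltC S') (FC S') (CC S') Ki.e (π ⟨a, ha⟩) a') := by
    refine ⟨fun a ha => ⟨π ⟨a, ha⟩, (π ⟨a, ha⟩).2, ha, Or.inl rfl⟩, fun a' ha' => ?_, ?_, ?_, ?_⟩
    · refine ⟨π.symm ⟨a', ha'⟩, (π.symm ⟨a', ha'⟩).2, (π.symm ⟨a', ha'⟩).2, ?_⟩
      rw [Subtype.coe_eta, Equiv.apply_symm_apply]
      exact Or.inl rfl
    · rintro a b a' ha hb ha' ⟨_, h1⟩ h2
      refine ⟨hb, ?_⟩
      have h3 := (he ⟨a, ha⟩ ⟨b, hb⟩).1 h2
      exact h'.etr _ _ _ (π ⟨b, hb⟩).2 (π ⟨a, ha⟩).2 ha' (eq_symm h' h3) h1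
    · rintro a a' b' ha ha' hb' ⟨_, h1⟩ h2
      exact ⟨ha, h'.etr _ _ _ (π ⟨a, ha⟩).2 ha' hb' h1 h2⟩
    · rintro i a b a' b' ha hb ha' hb' ⟨_, h1⟩ ⟨_, h2⟩ hab hab'
      have ga := (π ⟨a, ha⟩).2
      have gb := (π ⟨b, hb⟩).2
      have hne : a ≠ b := fun e => h.lin.irr _ (e ▸ hab)
      have hne' : a' ≠ b' := fun e => h'.lin.irr _ (e ▸ hab')
      have un1 : ∀ R : RB 1, Un (kR R) → (Kd (ltC S) (FC S) (CC S) (kR R) a b ↔
          Kd (ltC S') (FC S') (CC S') (kR R) a' b') := by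
        intro R hu
        rw [bb_un h hu ha hb hab, bb_un h' hu ha' hb' hab']
        have h3 := hr R (fun _ => ⟨a, ha⟩)
        refine Iff.trans h3 ⟨fun h4 => ?_, fun h4 => ?_⟩
        · exact bb_inv h' ga ga ha' ha' h1 h1 h4
        · exact bb_inv h' ha' ha' ga ga (eq_symm h' h1) (eq_symm h' h1) h4
      have bi1 : ∀ R : RB 2, fi R = 0 → la R = 1 → (Kd (ltC S) (FC S) (CC S) (kR R) a b ↔
          Kd (ltC S') (FC S') (CC S') (kR R) a' b') := by
        intro R hf hl
        rw [bb_iff h ha hb hab, bb_iff h' ha' hb' hab']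
        have h3 := hr R ![⟨a, ha⟩, ⟨b, hb⟩]
        unfold relB at h3
        rw [hf, hl] at h3
        refine Iff.trans h3 ⟨fun h4 => ?_, fun h4 => ?_⟩
        · exact bb_inv h' ga gb ha' hb' h1 h2 h4
        · exact bb_inv h' ha' hb' ga gb (eq_symm h' h1) (eq_symm h' h2) h4
      cases i with
      | e =>
        have k1 : Kd (ltC S) (FC S) (CC S) Ki.e a b ↔ Eq' (ltC S) (FC S) (CC S) Ki.e a b :=
          ⟨Or.inr, fun k => k.resolve_left hne⟩
        have k2 : Kd (ltC S') (FC S') (CC S') Ki.e a' b' ↔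
            Eq' (ltC S') (FC S') (CC S') Ki.e a' b' := ⟨Or.inr, fun k => k.resolve_left hne'⟩
        rw [k1, k2]
        refine Iff.trans (he ⟨a, ha⟩ ⟨b, hb⟩) ⟨fun h4 => ?_, fun h4 => ?_⟩
        · exact h'.etr _ _ _ ha' gb hb' (h'.etr _ _ _ ha' ga gb (eq_symm h' h1) h4) h2
        · exact h'.etr _ _ _ ga hb' gb (h'.etr _ _ _ ga ha' hb' h1 h4) (eq_symm h' h2)
      | D => exact un1 RB.D (Or.inl rfl)
      | C => exact un1 RB.C (Or.inr (Or.inl rfl))
      | M => exact un1 RB.M (Or.inr (Or.inr rfl))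
      | fs => exact bi1 RB.fs rfl rfl
      | sn => exact bi1 RB.sn rfl rfl
      | sc => exact bi1 RB.sc rfl rfl
  obtain ⟨σ, s1, s2, s3⟩ := iso_of_mch h h' hM
  obtain ⟨f, -⟩ := siso_of (S := S) (S' := S') σ (fun n R v => by
    cases R with
    | lt =>
      have e1 : v = pr (v 0) (v 1) := by funext j; fin_cases j <;> rfl
      have e2 : (fun i => σ (v i)) = pr (σ (v 0)) (σ (v 1)) := by funext j; fin_cases j <;> rfl
      rw [e2]
      conv_rhs => rw [e1]
      exact s1 _ _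
    | F =>
      have e1 : v = pr (v 0) (v 1) := by funext j; fin_cases j <;> rfl
      have e2 : (fun i => σ (v i)) = pr (σ (v 0)) (σ (v 1)) := by funext j; fin_cases j <;> rfl
      rw [e2]
      conv_rhs => rw [e1]
      exact s2 _ _
    | C k =>
      have e1 : v = fun _ => v 0 := by funext j; fin_cases j; rfl
      have e2 : (fun i => σ (v i)) = fun _ => σ (v 0) := by funext j; fin_cases j; rfl
      rw [e2]
      conv_rhs => rw [e1]
      exact s3 _ _)
  exact ⟨f⟩

theorem cntA : Itp.Cnt itpA Unit (fun _ => ()) := by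
  refine ⟨fun S S' h h' hi _ => ?_, fun _ _ _ c => ?_⟩
  · obtain ⟨π, hπ⟩ := (itpA.D_iso_iff h h').1 hi
    exact upA h h' π hπ
  · exact (Pool.Agent.W889.VC.BP.const (() = c))

section ex

variable {M : (TL 0 StB.LB).Structure ℕ}

/-- the binary relations of a structure -/
def Bm (M : (TL 0 StB.LB).Structure ℕ) (i : Ki) (u v : ℕ) : Prop :=
  (i = Ki.e ∧ Cs M (fun _ => u) (fun _ => v)) ∨ ∃ R : Σ n, RB n, kR R.2 = i ∧
    Rs M (L := StB.LB) R.2 (fun j _ => if (j : ℕ) = 0 then u else v)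

theorem bm_iff {n : ℕ} (R : RB n) (u v : ℕ) : Bm M (kR R) u v ↔
    Rs M (L := StB.LB) R (fun j _ => if (j : ℕ) = 0 then u else v) := by
  constructor
  · rintro (⟨h1, -⟩ | ⟨R', h1, h2⟩)
    · exact absurd h1 (kR_ne R)
    · have : R' = ⟨n, R⟩ := kR_inj R'.2 R h1
      subst this
      exact h2
  · exact fun h => Or.inr ⟨⟨n, R⟩, rfl, h⟩

theorem inj1 {A : Type} (x : Fin (0 + 1) → A) : Function.Injective x := by
  intro i j _
  exact Subsingleton.elim (α := Fin 1) i j

theorem base_of (h : W M) : Base (fun u v => Cs M (fun _ => u) (fun _ => v)) (Bm M) Ki.e Un := by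
  have hE : ∀ x : Tu 0, x = fun _ => x 0 := fun x => by
    funext j
    exact congrArg x (Subsingleton.elim (α := Fin 1) _ _)
  refine ⟨fun u => h.refl _ (inj1 _), fun u v => h.symm _ _, fun u v w => h.trans _ _ _,
    fun u => ?_, fun m => ?_, fun u v => ?_, ?_, ?_⟩
  · rw [← Set.not_finite]
    intro hfin
    obtain ⟨m, f, hf, hr⟩ : ∃ m : ℕ, ∃ f : Fin m → ℕ, Function.Injective f ∧
        ∀ v, Cs M (fun _ => u) (fun _ => v) → ∃ i, f i = v := by
      obtain ⟨A, hA⟩ := hfin.exists_finset_coe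
      refine ⟨A.card, fun i => A.equivFin.symm i, fun i j hij => ?_, fun v hv => ?_⟩
      · exact A.equivFin.symm.injective (Subtype.ext hij)
      · have hv' : v ∈ A := by
          rw [← Finset.mem_coe, hA]; exact hv
        exact ⟨A.equivFin ⟨v, hv'⟩, by simp⟩
    obtain ⟨a, h1, h2⟩ := h.gen m f hf (fun _ => u) (fun _ => inj1 _)
    have e1 : ∀ K : Fin 0 ↪o Fin m,
        (fun j => Fin.snoc (α := fun _ => ℕ) (fun i => f (K i)) (a ()) j) =
          fun _ : Fin (0 + 1) => a () := by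
      intro K
      funext j
      have : j = Fin.last 0 := Subsingleton.elim (α := Fin 1) _ _
      rw [this, Fin.snoc_last]
    have h3 := h2 ⟨⟨fun i : Fin 0 => i.elim0, fun i => i.elim0⟩, fun {i} => i.elim0⟩
    rw [e1] at h3
    obtain ⟨i, hi⟩ := hr (a ()) (h.symm _ _ h3)
    exact h1 i hi
  · obtain ⟨X, h1, h2⟩ := h.inf m
    refine ⟨fun i => X (i, 0), fun i i' hii => h2 i i' ?_⟩
    rw [hE (fun j => X (i, j)), hE (fun j => X (i', j))]
    exact hii
  · constructor
    · rintro (⟨_, h1⟩ | ⟨R', h1, -⟩)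
      · exact h1
      · exact absurd h1 (kR_ne _)
    · exact fun h1 => Or.inl ⟨rfl, h1⟩
  · rintro i u v u' v' hu hv (⟨h1, h2⟩ | ⟨R, h1, h2⟩)
    · exact Or.inl ⟨h1, h.trans _ _ _ (h.symm _ _ hu) (h.trans _ _ _ h2 hv)⟩
    · refine Or.inr ⟨R, h1, ?_⟩
      refine h.rcs R (fun p => if (p.1 : ℕ) = 0 then u else v)
        (fun p => if (p.1 : ℕ) = 0 then u' else v') (fun j => ?_) h2
      by_cases hj : (j : ℕ) = 0
      · simp only [hj, if_true]; exact hu
      · simp only [hj, if_false]; exact hv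
  · rintro i u v v' hi (⟨h1, h2⟩ | ⟨R, h1, h2⟩)
    · exfalso
      rw [h1] at hi
      rcases hi with h3 | h3 | h3 <;> exact absurd h3 (by simp)
    · refine Or.inr ⟨R, h1, ?_⟩
      have : (fun (j : Fin R.1) (_ : Fin (0 + 1)) => if (j : ℕ) = 0 then u else v) =
          fun (j : Fin R.1) (_ : Fin (0 + 1)) => if (j : ℕ) = 0 then u else v' := by
        obtain ⟨n, R⟩ := R
        cases R with
        | D => funext j _; fin_cases j; rfl
        | C => funext j _; fin_cases j; rfl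
        | M => funext j _; fin_cases j; rfl
        | fs => exfalso; rw [← h1] at hi; rcases hi with h3 | h3 | h3 <;> exact absurd h3 (by simp [kR])
        | sn => exfalso; rw [← h1] at hi; rcases hi with h3 | h3 | h3 <;> exact absurd h3 (by simp [kR])
        | sc => exfalso; rw [← h1] at hi; rcases hi with h3 | h3 | h3 <;> exact absurd h3 (by simp [kR])
      rw [← this]
      exact h2

/-- the structure with given relations -/
@[reducible] def mkC (lt F : ℕ → ℕ → Prop) (C : Ki → ℕ → Prop) : LC.Structure ℕ where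
  funMap := fun {_} f => isEmptyElim f
  RelMap := fun {n} R v => match n, R, v with
    | _, RC.lt, v => lt (v 0) (v 1)
    | _, RC.F, v => F (v 0) (v 1)
    | _, RC.C k, v => C k (v 0)

theorem exA (h : W M) : ∃ S, WA S ∧ SIso (itpA.D S) M := by
  obtain ⟨lt, F, C, π, h1, h2, h3, h4, h5⟩ := exists_G1 (base_of h)
  have hl : ltC (mkC lt F C) = lt := by
    funext a b
    exact propext Iff.rfl
  have hf : FC (mkC lt F C) = F := by
    funext a b
    exact propext Iff.rfl
  have hc : CC (mkC lt F C) = C := by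
    funext a b
    exact propext Iff.rfl
  have hW : WA (mkC lt F C) := by
    unfold WA
    rw [hl, hf, hc]
    exact h1
  refine ⟨mkC lt F C, hW, ?_⟩
  have hm : ∀ u, F (π u) (π u) := fun u => (h3 _).2 ⟨u, rfl⟩
  have hb : ∀ i u v, BB lt F C Ki.e i (π u) (π v) ↔ Bm M i u v := by
    intro i u v
    constructor
    · rintro ⟨b', k1, k2, k3, k4⟩
      obtain ⟨w, rfl⟩ := (h3 _).1 k1
      have k5 := (h5 i u w k2).1 k4
      have k6 := (h4 v w).1 k3
      exact (base_of h).ivt i u w u v (h.refl _ (inj1 _)) (h.symm _ _ k6) k5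
    · intro k1
      obtain ⟨b', k2, k3, k4⟩ := h1.d2 (π u) (π v) (hm _) (hm _)
      obtain ⟨w, rfl⟩ := (h3 _).1 k2
      have k6 := (h4 v w).1 k3
      exact ⟨π w, k2, k4, k3, (h5 i u w k4).2
        ((base_of h).ivt i u v u w (h.refl _ (inj1 _)) k6 k1)⟩
  refine itpA.D_iso hW (Equiv.ofBijective (fun u => (⟨π u, hm u⟩ : {u // itpA.dom (mkC lt F C) u}))
    ⟨fun u v huv => h2 (congrArg Subtype.val huv), fun ⟨a, ha⟩ => ?_⟩) ?_
  · obtain ⟨u, hu⟩ := (h3 a).1 ha
    exact ⟨u, Subtype.ext hu⟩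
  · intro n R u
    cases R with
    | eqv =>
      have e1 : u = jn (k := 0) (n := 2) ![fun _ => bl (k := 0) (n := 2) u 0 0,
          fun _ => bl (k := 0) (n := 2) u 1 0] := by
        conv_lhs => rw [← jn_bl (k := 0) (n := 2) u]
        congr 1
        funext i j
        have : j = 0 := Subsingleton.elim (α := Fin 1) _ _
        subst this
        fin_cases i <;> rfl
      show _ ↔ Eq' (ltC (mkC lt F C)) (FC (mkC lt F C)) (CC (mkC lt F C)) Ki.e _ _
      rw [hl, hf, hc]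
      refine Iff.trans ?_ (h4 _ _).symm
      conv_lhs => rw [e1]
      exact Iff.rfl
    | @rel n R =>
      show _ ↔ BB (ltC (mkC lt F C)) (FC (mkC lt F C)) (CC (mkC lt F C)) Ki.e _ _ _
      rw [hl, hf, hc]
      refine Iff.trans ?_ (hb _ _ _).symm
      refine Iff.trans ?_ (bm_iff R _ _).symm
      have e1 : u = jn (k := 0) (fun j _ => if (j : ℕ) = 0 then bl (k := 0) u (fi R) 0 else
          bl (k := 0) u (la R) 0) := by
        conv_lhs => rw [← jn_bl (k := 0) u]
        congr 1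
        funext i j
        have : j = 0 := Subsingleton.elim (α := Fin 1) _ _
        subst this
        exact congrFun (vec_eq R fun i => bl (k := 0) u i 0) i
      conv_lhs => rw [e1]
      exact Iff.rfl

end ex

end Pool.Agent.U97.TLO
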