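import Pool.Agent.U97.TLO.Runs

set_option autoImplicit false

/-!
Existence of orders with runs of given lengths.
-/

namespace Pool.Agent.U97.TLO

theorem exists_runs {lt F : ℕ → ℕ → Prop} {len : ℕ → ℕ} {N : ℕ} (h : SLin lt) (hF : Invo F)
    (hd : ∀ x y, lt x y → ∃ z, lt x z ∧ lt z y)
    (hlN : ∀ x, len x ≤ N) (hlF : ∀ x y, F x y → len x = len y) :
    ∃ (lt' F' : ℕ → ℕ → Prop) (e : ℕ ≃ {p : ℕ × ℕ // p.2 ≤ len p.1}), G2 lt' F' N ∧
      (∀ m n, lt' m n ↔ (lt (e m).1.1 (e n).1.1 ∨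
        ((e m).1.1 = (e n).1.1 ∧ (e m).1.2 < (e n).1.2))) ∧
      (∀ m n, F' m n ↔ F (e m).1.1 (e n).1.1 ∧ (e m).1.2 = (e n).1.2) ∧
      (∀ m, Dm lt' m ↔ (e m).1.2 = 0) ∧
      ∀ m n, (e m).1.2 = 0 → (Cl lt' n m ↔ len (e m).1.1 = n) := by
  classical
  have : Infinite {p : ℕ × ℕ // p.2 ≤ len p.1} :=
    Infinite.of_injective (fun x : ℕ => (⟨(x, 0), Nat.zero_le _⟩ : {p : ℕ × ℕ // p.2 ≤ len p.1}))
      fun x y hxy => congrArg (fun q : {p : ℕ × ℕ // p.2 ≤ len p.1} => q.1.1) hxy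
  obtain ⟨e⟩ : Nonempty (ℕ ≃ {p : ℕ × ℕ // p.2 ≤ len p.1}) := nonempty_equiv_of_countable
  let lt' : ℕ → ℕ → Prop := fun m n => lt (e m).1.1 (e n).1.1 ∨
    ((e m).1.1 = (e n).1.1 ∧ (e m).1.2 < (e n).1.2)
  let F' : ℕ → ℕ → Prop := fun m n => F (e m).1.1 (e n).1.1 ∧ (e m).1.2 = (e n).1.2
  have hext : ∀ m n, (e m).1.1 = (e n).1.1 → (e m).1.2 = (e n).1.2 → m = n := fun m n h1 h2 =>
    e.injective (Subtype.ext (Prod.ext h1 h2))
  have hex : ∀ x j, j ≤ len x → ∃ m, (e m).1.1 = x ∧ (e m).1.2 = j := fun x j hj =>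
    ⟨e.symm ⟨(x, j), hj⟩, by simp, by simp⟩
  have hlin : SLin lt' := by
    refine ⟨fun x h1 => ?_, fun x y z h1 h2 => ?_, fun x y => ?_⟩
    · rcases h1 with h1 | ⟨_, h1⟩
      · exact h.irr _ h1
      · exact lt_irrefl _ h1
    · rcases h1 with h1 | ⟨h1, h3⟩ <;> rcases h2 with h2 | ⟨h2, h4⟩
      · exact Or.inl (h.tr _ _ _ h1 h2)
      · exact Or.inl (h2 ▸ h1)
      · exact Or.inl (h1 ▸ h2)
      · exact Or.inr ⟨h1.trans h2, h3.trans h4⟩
    · rcases h.tot (e x).1.1 (e y).1.1 with h1 | h1 | h1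
      · rcases lt_trichotomy (e x).1.2 (e y).1.2 with h2 | h2 | h2
        · exact Or.inr (Or.inl (Or.inr ⟨h1, h2⟩))
        · exact Or.inl (hext _ _ h1 h2)
        · exact Or.inr (Or.inr (Or.inr ⟨h1.symm, h2⟩))
      · exact Or.inr (Or.inl (Or.inl h1))
      · exact Or.inr (Or.inr (Or.inl h1))
  have had : ∀ m n, Ad lt' m n ↔ (e m).1.1 = (e n).1.1 ∧ (e n).1.2 = (e m).1.2 + 1 := by
    intro m n
    constructor
    · rintro ⟨h1, h2⟩
      rcases h1 with h1 | ⟨h1, h3⟩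
      · exfalso
        obtain ⟨z, h4, h5⟩ := hd _ _ h1
        obtain ⟨k, h6, h7⟩ := hex z 0 (Nat.zero_le _)
        exact h2 k (Or.inl (h6 ▸ h4)) (Or.inl (h6 ▸ h5))
      · refine ⟨h1, ?_⟩
        by_contra h4
        obtain ⟨k, h6, h7⟩ := hex (e m).1.1 ((e m).1.2 + 1) (by
          have := (e n).2
          rw [← h1] at this
          omega)
        refine h2 k (Or.inr ⟨h6.symm, by omega⟩) (Or.inr ⟨h6.trans h1, by omega⟩)
    · rintro ⟨h1, h2⟩
      refine ⟨Or.inr ⟨h1, by omega⟩, fun z h3 h4 => ?_⟩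
      rcases h3 with h3 | ⟨h3, h5⟩
      · rcases h4 with h4 | ⟨h4, h6⟩
        · rw [← h1] at h4
          exact h.asym h3 h4
        · rw [h4, ← h1] at h3
          exact h.irr _ h3
      · rcases h4 with h4 | ⟨h4, h6⟩
        · rw [← h3, ← h1] at h4
          exact h.irr _ h4
        · omega
  have hch : ∀ j m n, Chn lt' j m n ↔ (e m).1.1 = (e n).1.1 ∧ (e n).1.2 = (e m).1.2 + j := by
    intro j
    induction j with
    | zero =>
      intro m n
      constructor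
      · intro h1
        have h2 : m = n := h1
        subst h2
        exact ⟨rfl, rfl⟩
      · rintro ⟨h1, h2⟩
        exact hext _ _ h1 (by omega)
    | succ j ih =>
      intro m n
      constructor
      · rintro ⟨z, h1, h2⟩
        obtain ⟨h3, h4⟩ := (ih _ _).1 h1
        obtain ⟨h5, h6⟩ := (had _ _).1 h2
        exact ⟨h3.trans h5, by omega⟩
      · rintro ⟨h1, h2⟩
        obtain ⟨k, h6, h7⟩ := hex (e m).1.1 ((e m).1.2 + j) (by
          have := (e n).2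
          rw [← h1] at this
          omega)
        exact ⟨k, (ih _ _).2 ⟨h6.symm, h7⟩, (had _ _).2 ⟨h6.trans h1, by omega⟩⟩
  have hdm : ∀ m, Dm lt' m ↔ (e m).1.2 = 0 := by
    intro m
    constructor
    · intro h1
      by_contra h2
      obtain ⟨k, h6, h7⟩ := hex (e m).1.1 ((e m).1.2 - 1) (by
        have := (e m).2
        omega)
      exact h1 k ((had _ _).2 ⟨h6, by omega⟩)
    · intro h1 y h2
      have := ((had _ _).1 h2).2
      omega
  refine ⟨lt', F', e, ⟨hlin, ⟨fun x => ?_, fun x y z h1 h2 => ?_, fun x y h1 => ?_⟩, fun x => ?_,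
    fun x y x' y' h1 h2 h3 => ?_, fun m => ?_⟩, fun m n => Iff.rfl, fun m n => Iff.rfl, hdm,
    fun m n h1 => ?_⟩
  · obtain ⟨y, hy⟩ := hF.ex (e x).1.1
    obtain ⟨k, h6, h7⟩ := hex y (e x).1.2 (by
      rw [← hlF _ _ hy]
      exact (e x).2)
    exact ⟨k, by show F _ _; rw [h6]; exact hy, h7.symm⟩
  · exact hext _ _ (hF.uni _ _ _ h1.1 h2.1) (h1.2.symm.trans h2.2)
  · exact ⟨hF.sym _ _ h1.1, h1.2.symm⟩
  · obtain ⟨k, h6, h7⟩ := hex (e x).1.1 0 (Nat.zero_le _)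
    have h8 : (e x).1.2 < N + 1 := by
      have := (e x).2
      have := hlN (e x).1.1
      omega
    exact ⟨⟨(e x).1.2, h8⟩, k, (hdm _).2 h7, (hch _ _ _).2 ⟨h6, by simp only; omega⟩⟩
  · obtain ⟨h4, h5⟩ := (had _ _).1 h1
    have h6 : (e x').1.1 = (e y').1.1 := by
      have h7 := h2.1
      rw [h4] at h7
      exact hF.uni _ _ _ h7 h3.1
    refine (had _ _).2 ⟨h6, ?_⟩
    rw [← h3.2, ← h2.2]
    exact h5
  · choose f h1 h2 using fun i : Fin m => hex (i : ℕ) 0 (Nat.zero_le _)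
    refine ⟨f, fun i j hij => ?_, fun i => (hdm _).2 (h2 i)⟩
    have := h1 i
    rw [hij, h1 j] at this
    exact Fin.ext this.symm
  · constructor
    · rintro ⟨y, h2, h3⟩
      obtain ⟨h4, h5⟩ := (hch _ _ _).1 h2
      by_contra h6
      have h7 := (e y).2
      rw [← h4] at h7
      obtain ⟨k, h8, h9⟩ := hex (e m).1.1 ((e y).1.2 + 1) (by omega)
      exact h3 k ((had _ _).2 ⟨h4.symm.trans h8.symm, h9⟩)
    · intro h2
      obtain ⟨k, h8, h9⟩ := hex (e m).1.1 n (by omega)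
      refine ⟨k, (hch _ _ _).2 ⟨h8.symm, by omega⟩, fun z h3 => ?_⟩
      obtain ⟨h4, h5⟩ := (had _ _).1 h3
      have := (e z).2
      rw [← h4, h8] at this
      omega

end Pool.Agent.U97.TLO
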