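import Pool.Agent.U97.TLO.ItpA2
import Pool.Agent.U97.TLO.RunsEx

set_option autoImplicit false

/-!
Colours are coded by the lengths of runs.
-/

namespace Pool.Agent.U97.TLO

open FirstOrder FirstOrder.Language
open Pool.Agent.W889.FO
open Pool.Agent.W889.VC (BP)

/-- two binary relation symbols -/
inductive R2 : ℕ → Type
  | a : R2 2
  | b : R2 2

/-- the language with two binary relation symbols -/
def L2 : FirstOrder.Language.{0, 0} := ⟨fun _ => Empty, R2⟩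

instance : L2.IsRelational := fun _ => inferInstanceAs (IsEmpty Empty)

/-- the first relation -/
def ra (S : L2.Structure ℕ) (x y : ℕ) : Prop := @Structure.RelMap L2 ℕ S _ R2.a (pr x y)
/-- the second relation -/
def rb (S : L2.Structure ℕ) (x y : ℕ) : Prop := @Structure.RelMap L2 ℕ S _ R2.b (pr x y)

/-- the structure with given relations -/
@[reducible] def mk2 (A B : ℕ → ℕ → Prop) : L2.Structure ℕ where
  funMap := fun {_} f => isEmptyElim f
  RelMap := fun {n} R v => match n, R, v with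
    | _, R2.a, v => A (v 0) (v 1)
    | _, R2.b, v => B (v 0) (v 1)

theorem ra_mk2 (A B : ℕ → ℕ → Prop) : ra (mk2 A B) = A := by
  funext a b
  exact propext Iff.rfl

theorem rb_mk2 (A B : ℕ → ℕ → Prop) : rb (mk2 A B) = B := by
  funext a b
  exact propext Iff.rfl

theorem fd_ra {V : L2.Structure ℕ → Prop} {α : Type} (i j : α) :
    FD V (fun S v => ra S (v i) (v j)) := fd_pr (L := L2) R2.a i j

theorem fd_rb {V : L2.Structure ℕ → Prop} {α : Type} (i j : α) :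
    FD V (fun S v => rb S (v i) (v j)) := fd_pr (L := L2) R2.b i j

theorem siso2 {S S' : L2.Structure ℕ} (σ : Equiv.Perm ℕ)
    (h1 : ∀ x y, ra S' (σ x) (σ y) ↔ ra S x y) (h2 : ∀ x y, rb S' (σ x) (σ y) ↔ rb S x y) :
    SIso S S' := by
  obtain ⟨f, -⟩ := siso_of (S := S) (S' := S') σ (fun n R v => by
    cases R with
    | a =>
      have e1 : v = pr (v 0) (v 1) := by funext j; fin_cases j <;> rfl
      have e2 : (fun i => σ (v i)) = pr (σ (v 0)) (σ (v 1)) := by funext j; fin_cases j <;> rfl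
      rw [e2]
      conv_rhs => rw [e1]
      exact h1 _ _
    | b =>
      have e1 : v = pr (v 0) (v 1) := by funext j; fin_cases j <;> rfl
      have e2 : (fun i => σ (v i)) = pr (σ (v 0)) (σ (v 1)) := by funext j; fin_cases j <;> rfl
      rw [e2]
      conv_rhs => rw [e1]
      exact h2 _ _)
  exact ⟨f⟩

section fd

variable {L : FirstOrder.Language.{0, 0}} {V : L.Structure ℕ → Prop}
  {lt : L.Structure ℕ → ℕ → ℕ → Prop}

theorem fd_Ad (hlt : ∀ {α : Type} (i j : α), FD V (fun S v => lt S (v i) (v j))) {α : Type}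
    (i j : α) : FD V (fun S v => Ad (lt S) (v i) (v j)) :=
  (hlt i j).and (StA.FD.all1 (P := fun S v z => lt S (v i) z → ¬ lt S z (v j))
    ((hlt _ _).imp (hlt _ _).not))

theorem fd_Chn (hlt : ∀ {α : Type} (i j : α), FD V (fun S v => lt S (v i) (v j))) (n : ℕ)
    {α : Type} (i j : α) : FD V (fun S v => Chn (lt S) n (v i) (v j)) := by
  induction n generalizing α with
  | zero => exact FD.eq i j
  | succ n ih =>
    exact StA.FD.ex1 (P := fun S v z => Chn (lt S) n (v i) z ∧ Ad (lt S) z (v j))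
      ((ih _ _).and (fd_Ad hlt _ _))

theorem fd_Dm (hlt : ∀ {α : Type} (i j : α), FD V (fun S v => lt S (v i) (v j)))
    {α : Type} (i : α) : FD V (fun S v => Dm (lt S) (v i)) :=
  StA.FD.all1 (P := fun S v z => ¬ Ad (lt S) z (v i)) (fd_Ad hlt _ _).not

theorem fd_Cl (hlt : ∀ {α : Type} (i j : α), FD V (fun S v => lt S (v i) (v j))) (n : ℕ)
    {α : Type} (i : α) : FD V (fun S v => Cl (lt S) n (v i)) :=
  StA.FD.ex1 (P := fun S v y => Chn (lt S) n (v i) y ∧ ∀ z, ¬ Ad (lt S) y z)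
    ((fd_Chn hlt _ _ _).and
      (StA.FD.all1 (P := fun S w z => ¬ Ad (lt S) (w (Sum.inr ())) z) (fd_Ad hlt _ _).not))

end fd

/-- the class -/
def WB (S : L2.Structure ℕ) : Prop := G2 (ra S) (rb S) 7

theorem ax_WB : Ax WB := by
  have h1 := ax_SLin (lt := ra) fun i j => fd_ra i j
  have h2 := ax_Invo (F := rb) fun i j => fd_rb i j
  have h3 : Ax (fun S : L2.Structure ℕ => ∀ w : Fin 1 → ℕ, ¬ ∀ j : Fin (7 + 1),
      ¬ ∃ y, Dm (ra S) y ∧ Chn (ra S) j y (w 0)) :=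
    axN (FD.fin (ι := Fin (7 + 1)) (P := fun (j : Fin (7 + 1)) (S : L2.Structure ℕ)
      (w : Fin 1 → ℕ) => ¬ ∃ y, Dm (ra S) y ∧ Chn (ra S) j y (w 0))
      fun j => (StA.FD.ex1 (P := fun S w y => Dm (ra S) y ∧ Chn (ra S) j y (w 0))
      ((fd_Dm fd_ra _).and (fd_Chn fd_ra _ _ _))).not).not
  have h4 : Ax (fun S : L2.Structure ℕ => ∀ w : Fin 4 → ℕ, Ad (ra S) (w 0) (w 1) →
      rb S (w 0) (w 2) → rb S (w 1) (w 3) → Ad (ra S) (w 2) (w 3)) :=
    axN ((fd_Ad fd_ra _ _).imp ((fd_rb _ _).imp ((fd_rb _ _).imp (fd_Ad fd_ra _ _))))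
  have h5 : Ax (fun S : L2.Structure ℕ => ∀ m : ℕ, ∃ X : Fin m → ℕ, Function.Injective X ∧
      ∀ i, Dm (ra S) (X i)) :=
    Ax.all fun m => Ax.of (FD.ex (P := fun S _ (X : Fin m → ℕ) => Function.Injective X ∧
      ∀ i, Dm (ra S) (X i)) ((FD.inj _).and (FD.fin fun i => fd_Dm fd_ra _)))
  refine (h1.and (h2.and (h3.and (h4.and h5)))).congr fun S => ⟨?_, ?_⟩
  · rintro ⟨k1, k2, k3, k4, k5⟩
    refine ⟨k1, k2, fun x => ?_, fun x y x' y' => k4 ![x, y, x', y'], k5⟩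
    have := k3 ![x]
    push Not at this
    exact this
  · rintro ⟨k1, k2, k3, k4, k5⟩
    refine ⟨k1, k2, fun w => ?_, fun w => k4 _ _ _ _, k5⟩
    push Not
    exact k3 _

/-- the number of a colour -/
def cn : Ki → ℕ
  | .e => 1
  | .D => 2
  | .C => 3
  | .M => 4
  | .fs => 5
  | .sn => 6
  | .sc => 7

theorem cn_pos (k : Ki) : 1 ≤ cn k := by cases k <;> simp [cn]
theorem cn_le (k : Ki) : cn k ≤ 7 := by cases k <;> simp [cn]
theorem cn_inj {k k' : Ki} (h : cn k = cn k') : k = k' := by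
  cases k <;> cases k' <;> first | rfl | (exact absurd h (by simp [cn]))
theorem cn_surj {n : ℕ} (h1 : 1 ≤ n) (h2 : n ≤ 7) : ∃ k, cn k = n := by
  interval_cases n
  · exact ⟨.e, rfl⟩
  · exact ⟨.D, rfl⟩
  · exact ⟨.C, rfl⟩
  · exact ⟨.M, rfl⟩
  · exact ⟨.fs, rfl⟩
  · exact ⟨.sn, rfl⟩
  · exact ⟨.sc, rfl⟩

/-- the interpreted relations -/
def relCB : ∀ {n : ℕ}, LC.Relations n → L2.Structure ℕ → (Fin n → ℕ) → Prop
  | _, RC.lt, S, v => ra S (v 0) (v 1)
  | _, RC.F, S, v => rb S (v 0) (v 1)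
  | _, RC.C k, S, v => Cl (ra S) (cn k) (v 0)

/-- the interpretation -/
def itpB : Itp LC L2 where
  W := WB
  axW := ax_WB
  dom := fun S u => Dm (ra S) u
  rel := relCB
  fdom := fd_Dm fd_ra _
  frel := by
    intro n R
    cases R with
    | lt => exact fd_ra _ _
    | F => exact fd_rb _ _
    | C k => exact fd_Cl fd_ra _ _
  inf := by
    intro S hS N
    by_contra hcon
    push Not at hcon
    obtain ⟨X, h1, h2⟩ := hS.inf (N + 1)
    have h4 : ∀ i, X i < N := fun i => by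
      by_contra hlt
      exact hcon (X i) (not_lt.1 hlt) (h2 i)
    have h5 : Function.Injective fun i => (⟨X i, h4 i⟩ : Fin N) := by
      intro i i' hii
      exact h1 (congrArg Fin.val hii)
    have := Fintype.card_le_of_injective _ h5
    simp at this

theorem upB {S S' : L2.Structure ℕ} (h : WB S) (h' : WB S')
    (π : {u // Dm (ra S) u} ≃ {u // Dm (ra S') u})
    (hπ : ∀ {n : ℕ} (R : LC.Relations n) (u : Fin n → {u // Dm (ra S) u}),
        itpB.rel R S (fun i => u i) ↔ itpB.rel R S' (fun i => π (u i))) : SIso S S' := by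
  obtain ⟨σ, h1, h2⟩ := iso_of_runs (π := π) h h' (fun n h1 h2 x => by
      obtain ⟨k, rfl⟩ := cn_surj h1 h2
      exact hπ (RC.C k) (fun _ => x))
    (fun x y => hπ RC.lt ![x, y]) (fun x y => hπ RC.F ![x, y])
  exact siso2 σ h1 h2

theorem cntB : Itp.Cnt itpB Unit (fun _ => ()) := by
  refine ⟨fun S S' h h' hi _ => ?_, fun _ _ _ c => ?_⟩
  · obtain ⟨π, hπ⟩ := (itpB.D_iso_iff h h').1 hi
    exact upB h h' π hπ
  · exact (Pool.Agent.W889.VC.BP.const (() = c))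

/-- the order is dense -/
theorem dense_of_G1 {ι : Type} {lt F : ℕ → ℕ → Prop} {C : ι → ℕ → Prop} {e : ι} {un : ι → Prop}
    (h : G1 lt F C e un) (x y : ℕ) (hxy : lt x y) : ∃ z, lt x z ∧ lt z y := by
  obtain ⟨a, ha⟩ := h.pc x
  obtain ⟨b, h1, h2, h3⟩ := h.d2 a a ha.1 ha.1
  have hne : a ≠ b := fun h4 => h.lin.irr _ (h4 ▸ h3)
  have hk : Kd lt F C e a b := h2.resolve_left hne
  obtain ⟨s, h4, h5, h6⟩ := h.d2 b a h1 ha.1
  obtain ⟨z, w, -, -, -, -, k1, k2, -, -⟩ := h.gen e a b x y b s hne hk ha hxy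
    (pc_self h.lin h1) h6
  exact ⟨z, k1, k2⟩

theorem exB {M : LC.Structure ℕ} (h : WA M) : ∃ S, WB S ∧ SIso (itpB.D S) M := by
  classical
  let len : ℕ → ℕ := fun x => if hx : ∃ k, CC M k x then cn hx.choose else 0
  have hl1 : ∀ k x, CC M k x → len x = cn k := by
    intro k x hx
    have hx' : ∃ k, CC M k x := ⟨k, hx⟩
    show (if hx : ∃ k, CC M k x then cn hx.choose else 0) = _
    rw [dif_pos hx', h.c2 _ _ _ hx'.choose_spec hx]
  have hl2 : ∀ x, (∀ k, ¬ CC M k x) → len x = 0 := by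
    intro x hx
    show (if hx : ∃ k, CC M k x then cn hx.choose else 0) = _
    rw [dif_neg]
    rintro ⟨k, hk⟩
    exact hx k hk
  have hl3 : ∀ k x, len x = cn k ↔ CC M k x := by
    intro k x
    refine ⟨fun h1 => ?_, hl1 k x⟩
    by_cases hx : ∃ k, CC M k x
    · obtain ⟨k', hk'⟩ := hx
      rw [hl1 _ _ hk'] at h1
      rw [← cn_inj h1]
      exact hk'
    · rw [hl2 x fun k hk => hx ⟨k, hk⟩] at h1
      have := cn_pos k
      omega
  have hN : ∀ x, len x ≤ 7 := by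
    intro x
    by_cases hx : ∃ k, CC M k x
    · obtain ⟨k', hk'⟩ := hx
      rw [hl1 _ _ hk']
      exact cn_le _
    · rw [hl2 x fun k hk => hx ⟨k, hk⟩]
      omega
  have hF : ∀ x y, FC M x y → len x = len y := by
    intro x y hxy
    by_cases hx : ∃ k, CC M k x
    · obtain ⟨k', hk'⟩ := hx
      rw [hl1 _ _ hk', hl1 _ _ (h.c3 _ _ _ hk' hxy)]
    · by_cases hy : ∃ k, CC M k y
      · obtain ⟨k', hk'⟩ := hy
        exact absurd ⟨k', h.c3 _ _ _ hk' (h.inv.sym _ _ hxy)⟩ hx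
      · rw [hl2 x fun k hk => hx ⟨k, hk⟩, hl2 y fun k hk => hy ⟨k, hk⟩]
  obtain ⟨lt', F', e, h1, h2, h3, h4, h5⟩ := exists_runs h.lin h.inv (dense_of_G1 h) hN hF
  have hW : WB (mk2 lt' F') := by
    unfold WB
    rw [ra_mk2, rb_mk2]
    exact h1
  refine ⟨mk2 lt' F', hW, ?_⟩
  have hz : ∀ x, (e (e.symm ⟨(x, 0), Nat.zero_le _⟩)).1.2 = 0 := fun x => by simp
  have hz1 : ∀ x, (e (e.symm ⟨(x, 0), Nat.zero_le _⟩)).1.1 = x := fun x => by simp
  have hd : ∀ x, itpB.dom (mk2 lt' F') (e.symm ⟨(x, 0), Nat.zero_le _⟩) := fun x => by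
    show Dm (ra (mk2 lt' F')) _
    rw [ra_mk2]
    exact (h4 _).2 (hz x)
  refine itpB.D_iso hW (Equiv.ofBijective
    (fun x => (⟨e.symm ⟨(x, 0), Nat.zero_le _⟩, hd x⟩ : {u // itpB.dom (mk2 lt' F') u}))
    ⟨fun u v huv => ?_, fun ⟨a, ha⟩ => ?_⟩) ?_
  · have h6 := congrArg Subtype.val huv
    have h7 := congrArg (fun a => (e a).1.1) h6
    simpa using h7
  · have ha' : Dm (ra (mk2 lt' F')) a := ha
    rw [ra_mk2, h4] at ha'
    refine ⟨(e a).1.1, Subtype.ext ?_⟩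
    show e.symm _ = a
    rw [Equiv.symm_apply_eq]
    exact Subtype.ext (Prod.ext rfl ha'.symm)
  · intro n R u
    cases R with
    | lt =>
      show _ ↔ ra (mk2 lt' F') (e.symm ⟨(u 0, 0), Nat.zero_le _⟩)
        (e.symm ⟨(u 1, 0), Nat.zero_le _⟩)
      rw [ra_mk2, h2]
      show _ ↔ ltC M (e (e.symm ⟨(u 0, 0), Nat.zero_le _⟩)).1.1
        (e (e.symm ⟨(u 1, 0), Nat.zero_le _⟩)).1.1 ∨
        ((e (e.symm ⟨(u 0, 0), Nat.zero_le _⟩)).1.1 = (e (e.symm ⟨(u 1, 0), Nat.zero_le _⟩)).1.1 ∧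
          (e (e.symm ⟨(u 0, 0), Nat.zero_le _⟩)).1.2 <
            (e (e.symm ⟨(u 1, 0), Nat.zero_le _⟩)).1.2)
      simp only [hz1, hz, lt_irrefl, and_false, or_false]
      have e1 : u = pr (u 0) (u 1) := by funext j; fin_cases j <;> rfl
      conv_lhs => rw [e1]
      exact Iff.rfl
    | F =>
      show _ ↔ rb (mk2 lt' F') (e.symm ⟨(u 0, 0), Nat.zero_le _⟩)
        (e.symm ⟨(u 1, 0), Nat.zero_le _⟩)
      rw [rb_mk2, h3]
      show _ ↔ FC M (e (e.symm ⟨(u 0, 0), Nat.zero_le _⟩)).1.1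
        (e (e.symm ⟨(u 1, 0), Nat.zero_le _⟩)).1.1 ∧
          (e (e.symm ⟨(u 0, 0), Nat.zero_le _⟩)).1.2 =
            (e (e.symm ⟨(u 1, 0), Nat.zero_le _⟩)).1.2
      simp only [hz1, hz, and_true]
      have e1 : u = pr (u 0) (u 1) := by funext j; fin_cases j <;> rfl
      conv_lhs => rw [e1]
      exact Iff.rfl
    | C k =>
      show _ ↔ Cl (ra (mk2 lt' F')) (cn k) (e.symm ⟨(u 0, 0), Nat.zero_le _⟩)
      rw [ra_mk2, h5 _ _ (hz _), hz1, hl3]
      have e1 : u = fun _ => u 0 := by funext j; fin_cases j; rfl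
      conv_lhs => rw [e1]
      exact Iff.rfl

end Pool.Agent.U97.TLO
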