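import Pool.Agent.U97.TLO.Runs

set_option autoImplicit false

/-!
An involution is coded by a second linear order.
-/

namespace Pool.Agent.U97.TLO

section defs

variable (lt F : ℕ → ℕ → Prop)

/-- `u` is the smaller one of `x` and its image -/
def Mn (x u : ℕ) : Prop := (F x u ∧ (u = x ∨ lt u x)) ∨ (u = x ∧ ∃ w, F x w ∧ lt x w)

/-- the second order -/
def Lo (x y : ℕ) : Prop := ∃ u v, Mn lt F x u ∧ Mn lt F y v ∧ (lt u v ∨ (u = v ∧ lt x y))

/-- partners -/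
def Pt (lt lt2 : ℕ → ℕ → Prop) (x y : ℕ) : Prop :=
  (lt x y ∧ Ad lt2 x y) ∨ (lt y x ∧ Ad lt2 y x)

/-- the involution defined by two orders -/
def Fd (lt lt2 : ℕ → ℕ → Prop) (x y : ℕ) : Prop := Pt lt lt2 x y ∨ (x = y ∧ ∀ z, ¬ Pt lt lt2 x z)

end defs

variable {lt F : ℕ → ℕ → Prop}

theorem exists_mn (h : SLin lt) (hF : Invo F) : ∃ (f mn : ℕ → ℕ), (∀ x y, F x y ↔ f x = y) ∧
    (∀ x, f (f x) = x) ∧ (∀ x u, Mn lt F x u ↔ mn x = u) ∧ (∀ x, lt x (f x) → mn x = x) ∧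
      (∀ x, lt (f x) x → mn x = f x) ∧ ∀ x, f x = x → mn x = x := by
  classical
  choose f hf using hF.ex
  have h1 : ∀ x y, F x y ↔ f x = y := fun x y =>
    ⟨fun h2 => hF.uni _ _ _ (hf x) h2, fun h2 => h2 ▸ hf x⟩
  have h2 : ∀ x, f (f x) = x := fun x => hF.uni _ _ _ (hf (f x)) (hF.sym _ _ (hf x))
  have h3 : ∀ x, lt x (f x) → (if lt (f x) x then f x else x) = x := fun x h4 =>
    if_neg fun h5 => h.asym h4 h5
  have h4 : ∀ x, lt (f x) x → (if lt (f x) x then f x else x) = f x := fun x h5 => if_pos h5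
  have h5 : ∀ x, f x = x → (if lt (f x) x then f x else x) = x := fun x h6 => by
    rw [if_neg]
    rw [h6]
    exact h.irr x
  refine ⟨f, fun x => if lt (f x) x then f x else x, h1, h2, fun x u => ?_, h3, h4, h5⟩
  show _ ↔ (if lt (f x) x then f x else x) = u
  constructor
  · rintro (⟨h6, h7 | h7⟩ | ⟨h6, w, h7, h8⟩)
    · rw [h1] at h6
      rw [h5 x (by rw [h6, h7]), h7]
    · rw [h1] at h6
      rw [h4 x (by rw [h6]; exact h7), h6]
    · rw [h1] at h7
      rw [h3 x (by rw [h7]; exact h8), h6]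
  · intro h6
    rcases h.tot x (f x) with h7 | h7 | h7
    · rw [h5 x h7.symm] at h6
      subst h6
      exact Or.inl ⟨(h1 _ _).2 h7.symm, Or.inl rfl⟩
    · rw [h3 x h7] at h6
      exact Or.inr ⟨h6.symm, f x, hf x, h7⟩
    · rw [h4 x h7] at h6
      subst h6
      exact Or.inl ⟨hf x, Or.inr h7⟩

theorem lo_lin (h : SLin lt) (hF : Invo F) : SLin (Lo lt F) := by
  obtain ⟨f, mn, -, -, h3, -, -, -⟩ := exists_mn h hF
  have hL : ∀ x y, Lo lt F x y ↔ (lt (mn x) (mn y) ∨ (mn x = mn y ∧ lt x y)) := by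
    intro x y
    constructor
    · rintro ⟨u, v, h4, h5, h6⟩
      rw [h3] at h4 h5
      rw [h4, h5]
      exact h6
    · intro h4
      exact ⟨mn x, mn y, (h3 _ _).2 rfl, (h3 _ _).2 rfl, h4⟩
  refine ⟨fun x h4 => ?_, fun x y z h4 h5 => ?_, fun x y => ?_⟩
  · rcases (hL _ _).1 h4 with h5 | h5
    · exact h.irr _ h5
    · exact h.irr _ h5.2
  · rw [hL] at h4 h5 ⊢
    rcases h4 with h4 | ⟨h4, h6⟩ <;> rcases h5 with h5 | ⟨h5, h7⟩
    · exact Or.inl (h.tr _ _ _ h4 h5)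
    · exact Or.inl (h5 ▸ h4)
    · exact Or.inl (h4 ▸ h5)
    · exact Or.inr ⟨h4.trans h5, h.tr _ _ _ h6 h7⟩
  · rw [hL, hL]
    rcases h.tot (mn x) (mn y) with h4 | h4 | h4
    · rcases h.tot x y with h5 | h5 | h5
      · exact Or.inl h5
      · exact Or.inr (Or.inl (Or.inr ⟨h4, h5⟩))
      · exact Or.inr (Or.inr (Or.inr ⟨h4.symm, h5⟩))
    · exact Or.inr (Or.inl (Or.inl h4))
    · exact Or.inr (Or.inr (Or.inl h4))

/-- **The involution is recovered.** -/
theorem fd_iff (h : SLin lt) (hF : Invo F)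
    (Q1 : ∀ u x, F u x → lt u x → ∃ z, F z z ∧ lt u z ∧ (z = x ∨ lt z x))
    (Q2 : ∀ x y, F x x → lt x y → ∃ z w, F z w ∧ lt z w ∧ lt x z ∧ lt z y) (x y : ℕ) :
    Fd lt (Lo lt F) x y ↔ F x y := by
  obtain ⟨f, mn, h1, h2, h3, h4, h5, h6⟩ := exists_mn h hF
  have hL : ∀ x y, Lo lt F x y ↔ (lt (mn x) (mn y) ∨ (mn x = mn y ∧ lt x y)) := by
    intro x y
    constructor
    · rintro ⟨u, v, h4, h5, h6⟩
      rw [h3] at h4 h5
      rw [h4, h5]
      exact h6
    · intro h4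
      exact ⟨mn x, mn y, (h3 _ _).2 rfl, (h3 _ _).2 rfl, h4⟩
  have hmn : ∀ z, mn z = z ∨ mn z = f z := by
    intro z
    rcases h.tot z (f z) with h7 | h7 | h7
    · exact Or.inl (h6 z h7.symm)
    · exact Or.inl (h4 z h7)
    · exact Or.inr (h5 z h7)
  have ha : ∀ x y, F x y → lt x y → Ad (Lo lt F) x y := by
    intro x y hxy hlt
    have e1 : mn x = x := h4 x (by rw [(h1 _ _).1 hxy]; exact hlt)
    have e2 : f y = x := by rw [← (h1 _ _).1 hxy, h2]
    have e3 : mn y = x := by rw [h5 y (by rw [e2]; exact hlt), e2]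
    refine ⟨(hL _ _).2 (Or.inr ⟨by rw [e1, e3], hlt⟩), fun z hz1 hz2 => ?_⟩
    rw [hL, e1] at hz1
    rw [hL, e3] at hz2
    rcases hz1 with hz1 | ⟨hz1, hz3⟩
    · rcases hz2 with hz2 | ⟨hz2, hz4⟩
      · exact h.asym hz1 hz2
      · rw [hz2] at hz1
        exact h.irr _ hz1
    · rcases hz2 with hz2 | ⟨hz2, hz4⟩
      · rw [← hz1] at hz2
        exact h.irr _ hz2
      · rcases hmn z with h7 | h7
        · rw [h7] at hz1
          rw [← hz1] at hz3
          exact h.irr _ hz3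
        · have h8 : z = y := by
            rw [← h2 z, ← h7, ← hz1, (h1 _ _).1 hxy]
          rw [h8] at hz4
          exact h.irr _ hz4
  have hb : ∀ x y, lt x y → Ad (Lo lt F) x y → F x y := by
    intro x y hlt had
    by_contra hno
    have hne : f x ≠ y := fun h7 => hno ((h1 _ _).2 h7)
    have hxy : x ≠ y := fun h7 => h.irr _ (h7 ▸ hlt)
    have huv : lt (mn x) (mn y) := by
      rcases (hL _ _).1 had.1 with h7 | ⟨h7, -⟩
      · exact h7
      · exfalso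
        rcases hmn x with h8 | h8 <;> rcases hmn y with h9 | h9
        · rw [h8, h9] at h7; exact hxy h7
        · rw [h8, h9] at h7
          exact hne (by rw [h7, h2])
        · rw [h8, h9] at h7
          exact hne h7
        · rw [h8, h9] at h7
          exact hxy (by rw [← h2 x, h7, h2])
    have hv : mn y = y := by
      rcases h.tot y (f y) with h7 | h7 | h7
      · exact h6 y h7.symm
      · exact h4 y h7
      · exfalso
        have e1 : mn y = f y := h5 y h7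
        have e2 : mn (f y) = f y := h4 (f y) (by rw [h2]; exact h7)
        refine had.2 (f y) ((hL _ _).2 (Or.inl ?_)) ((hL _ _).2 (Or.inr ⟨?_, h7⟩))
        · rw [e2, ← e1]; exact huv
        · rw [e1, e2]
    rw [hv] at huv
    rcases h.tot x (f x) with h7 | h7 | h7
    · have e1 : mn x = x := h6 x h7.symm
      obtain ⟨z, w, k1, k2, k3, k4⟩ := Q2 x y ((h1 _ _).2 h7.symm) hlt
      have e2 : mn z = z := h4 z (by rw [(h1 _ _).1 k1]; exact k2)
      refine had.2 z ((hL _ _).2 (Or.inl ?_)) ((hL _ _).2 (Or.inl ?_))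
      · rw [e1, e2]; exact k3
      · rw [e2, hv]; exact k4
    · have e1 : mn x = x := h4 x h7
      have e2 : mn (f x) = x := by
        rw [h5 (f x) (by rw [h2]; exact h7), h2]
      refine had.2 (f x) ((hL _ _).2 (Or.inr ⟨?_, h7⟩)) ((hL _ _).2 (Or.inl ?_))
      · rw [e1, e2]
      · rw [e2, hv, ← e1]; exact huv
    · have e1 : mn x = f x := h5 x h7
      obtain ⟨z, k1, k2, k3⟩ := Q1 (f x) x ((h1 _ _).2 (h2 x)) h7
      have e2 : mn z = z := h6 z ((h1 _ _).1 k1)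
      refine had.2 z ((hL _ _).2 (Or.inl ?_)) ((hL _ _).2 (Or.inl ?_))
      · rw [e1, e2]; exact k2
      · rw [e2, hv]
        rcases k3 with k3 | k3
        · rw [k3]; exact hlt
        · exact h.tr _ _ _ k3 hlt
  have hp : ∀ x y, Pt lt (Lo lt F) x y ↔ F x y ∧ x ≠ y := by
    intro x y
    constructor
    · rintro (⟨k1, k2⟩ | ⟨k1, k2⟩)
      · exact ⟨hb _ _ k1 k2, fun k3 => h.irr _ (k3 ▸ k1)⟩
      · exact ⟨hF.sym _ _ (hb _ _ k1 k2), fun k3 => h.irr _ (k3 ▸ k1)⟩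
    · rintro ⟨k1, k2⟩
      rcases h.tot x y with k3 | k3 | k3
      · exact absurd k3 k2
      · exact Or.inl ⟨k3, ha _ _ k1 k3⟩
      · exact Or.inr ⟨k3, ha _ _ (hF.sym _ _ k1) k3⟩
  constructor
  · rintro (k1 | ⟨rfl, k1⟩)
    · exact ((hp _ _).1 k1).1
    · by_contra k2
      have k3 : x ≠ f x := fun k4 => k2 ((h1 _ _).2 k4.symm)
      exact k1 (f x) ((hp _ _).2 ⟨(h1 _ _).2 rfl, k3⟩)
  · intro k1
    by_cases k2 : x = y
    · subst k2
      refine Or.inr ⟨rfl, fun z k3 => ?_⟩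
      obtain ⟨k4, k5⟩ := (hp _ _).1 k3
      exact k5 (hF.uni _ _ _ k1 k4)
    · exact Or.inl ((hp _ _).2 ⟨k1, k2⟩)

/-- the class of pairs of orders -/
structure G3 (lt lt2 : ℕ → ℕ → Prop) : Prop where
  lin : SLin lt
  lin2 : SLin lt2
  inv : Invo (Fd lt lt2)
  eq : ∀ x y, lt2 x y ↔ Lo lt (Fd lt lt2) x y

theorem exists_G3 (h : SLin lt) (hF : Invo F)
    (Q1 : ∀ u x, F u x → lt u x → ∃ z, F z z ∧ lt u z ∧ (z = x ∨ lt z x))
    (Q2 : ∀ x y, F x x → lt x y → ∃ z w, F z w ∧ lt z w ∧ lt x z ∧ lt z y) :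
    G3 lt (Lo lt F) ∧ Fd lt (Lo lt F) = F := by
  have e : Fd lt (Lo lt F) = F := by
    funext x y
    exact propext (fd_iff h hF Q1 Q2 x y)
  refine ⟨⟨h, lo_lin h hF, ?_, fun x y => ?_⟩, e⟩
  · rw [e]; exact hF
  · rw [e]

end Pool.Agent.U97.TLO
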