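import Pool.Agent.U97.TLO.ItpB
import Pool.Agent.U97.TLO.Two

set_option autoImplicit false

/-!
Two linear orders.
-/

namespace Pool.Agent.U97.TLO

open FirstOrder FirstOrder.Language
open Pool.Agent.W889.FO
open Pool.Agent.W889.VC (BP)

section Q

variable {S : L2.Structure ℕ}

/-- the structure on the starts -/
theorem D_facts (h : WB S) : ∃ e : ℕ ≃ {u // Dm (ra S) u},
    (∀ m n, ltC (itpB.D S) m n ↔ ra S (e m) (e n)) ∧
    (∀ m n, FC (itpB.D S) m n ↔ rb S (e m) (e n)) ∧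
    ∀ k m, CC (itpB.D S) k m ↔ Cl (ra S) (cn k) (e m) := by
  obtain ⟨e, he⟩ := itpB.nth h
  have h1 : ∀ m n i, Pool.Agent.W889.SD.Nth (itpB.dom S) (pr m n i)
      (pr (e m : ℕ) (e n : ℕ) i) := by
    intro m n i
    rw [he]
    unfold pr
    split <;> rfl
  refine ⟨e, fun m n => ?_, fun m n => ?_, fun k m => ?_⟩
  · exact itpB.rel_iff h (RC.lt : LC.Relations 2) (h1 m n)
  · exact itpB.rel_iff h (RC.F : LC.Relations 2) (h1 m n)
  · exact itpB.rel_iff h (RC.C k : LC.Relations 1) (v := fun _ => m) (u := fun _ => (e m : ℕ))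
      fun _ => (he _ _).2 rfl

variable (h : WB S) (h' : WA (itpB.D S))
include h h'

theorem Q1_of : ∀ u x, rb S u x → ra S u x → ∃ z, rb S z z ∧ ra S u z ∧ (z = x ∨ ra S z x) := by
  intro u x hF hlt
  obtain ⟨e, e1, e2, e3⟩ := D_facts h
  have hl := h.lin
  obtain ⟨j, u0, hu0, hc⟩ := h.run u
  obtain ⟨x0, hx0⟩ := h.inv.ex u0
  have hdx : Dm (ra S) x0 := dm_F h hu0 hx0
  have hcx : Chn (ra S) j x0 x := chn_F h hc hx0 hF
  have hne : u0 ≠ x0 := by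
    rintro rfl
    rw [chn_uni hl hc hcx] at hlt
    exact hl.irr _ hlt
  have hlt0 : ra S u0 x0 := by
    rcases hl.tot u0 x0 with h1 | h1 | h1
    · exact absurd h1 hne
    · exact h1
    · exact (hl.asym hlt (chn_ord hl hu0 h1 hcx hc)).elim
  obtain ⟨m, hm⟩ : ∃ m, (e m : ℕ) = u0 := ⟨e.symm ⟨u0, hu0⟩, by simp⟩
  obtain ⟨n, hn⟩ : ∃ n, (e n : ℕ) = x0 := ⟨e.symm ⟨x0, hdx⟩, by simp⟩
  have k1 : ltC (itpB.D S) m n := (e1 _ _).2 (by rw [hm, hn]; exact hlt0)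
  have k2 : FC (itpB.D S) m n := (e2 _ _).2 (by rw [hm, hn]; exact hx0)
  have hmn : m ≠ n := fun e => h'.lin.irr _ (e ▸ k1)
  obtain ⟨a, ha⟩ := h'.pc n
  have hna : a ≠ n := by
    rintro rfl
    exact hmn (h'.inv.uni _ _ _ (h'.inv.sym _ _ k2) ha.1)
  have han : ltC (itpB.D S) a n := ha.2.1.resolve_left hna
  have hma : ltC (itpB.D S) m a := by
    by_contra h1
    refine h'.sep n m a (h'.inv.sym _ _ k2) hmn.symm ha ⟨ha.1, ?_, fun q hq1 hq2 => ?_⟩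
    · rcases h'.lin.tot a m with h2 | h2 | h2
      · exact Or.inl h2
      · exact Or.inr h2
      · exact absurd h2 h1
    · refine ha.2.2 q hq1 (Or.inr ?_)
      rcases hq2 with rfl | hq2
      · exact k1
      · exact h'.lin.tr _ _ _ hq2 k1
  have g1 := (e1 _ _).1 hma
  have g2 := (e1 _ _).1 han
  rw [hm] at g1
  rw [hn] at g2
  refine ⟨e a, (e2 _ _).1 ha.1, chn_out hl (e a).2 g1 hc, Or.inr ?_⟩
  rcases chn_le hl hcx with h3 | h3
  · rw [← h3]; exact g2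
  · exact hl.tr _ _ _ g2 h3

theorem Q2_of : ∀ x y, rb S x x → ra S x y → ∃ z w, rb S z w ∧ ra S z w ∧ ra S x z ∧
    ra S z y := by
  intro x y hF hlt
  obtain ⟨e, e1, e2, e3⟩ := D_facts h
  have hl := h.lin
  obtain ⟨j, x0, hx0, hc⟩ := h.run x
  obtain ⟨x1, hx1⟩ := h.inv.ex x0
  have hd1 : Dm (ra S) x1 := dm_F h hx0 hx1
  have hc1 : Chn (ra S) j x1 x := chn_F h hc hx1 hF
  have h01 : x0 = x1 := (chn_dm hl hx0 hd1 hc hc1).1
  rw [← h01] at hx1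
  obtain ⟨m, hm⟩ : ∃ m, (e m : ℕ) = x0 := ⟨e.symm ⟨x0, hx0⟩, by simp⟩
  have k1 : FC (itpB.D S) m m := (e2 _ _).2 (by rw [hm]; exact hx1)
  have hrun : ∀ j z, Chn (ra S) j x0 z → j = 0 := by
    intro j z hz
    by_contra hj
    obtain ⟨n, h3, h4, h5⟩ := (run_iff h hx0).1 ⟨z, hz⟩
    obtain ⟨k, rfl⟩ := cn_surj (by omega) h3
    exact h'.c0 k m k1 ((e3 _ _).2 (by rw [hm]; exact h5))
  have hj : (j : ℕ) = 0 := hrun _ _ hc
  rw [hj] at hc
  have hxx : x0 = x := hc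
  subst hxx
  obtain ⟨k, y0, hy0, hcy⟩ := h.run y
  have hne : x0 ≠ y0 := by
    rintro rfl
    have := hrun _ _ hcy
    rw [this] at hcy
    have h6 : x0 = y := hcy
    exact hl.irr _ (h6 ▸ hlt)
  have hxy : ra S x0 y0 := by
    rcases hl.tot x0 y0 with h1 | h1 | h1
    · exact absurd h1 hne
    · exact h1
    · exact (hl.asym hlt (chn_out hl hx0 h1 hcy)).elim
  obtain ⟨n, hn⟩ : ∃ n, (e n : ℕ) = y0 := ⟨e.symm ⟨y0, hy0⟩, by simp⟩
  have k2 : ltC (itpB.D S) m n := (e1 _ _).2 (by rw [hm, hn]; exact hxy)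
  obtain ⟨b, h1, h2, h3⟩ := h'.d2 m m k1 k1
  have hmb : m ≠ b := fun h4 => h'.lin.irr _ (h4 ▸ h3)
  have hk : Kd (ltC (itpB.D S)) (FC (itpB.D S)) (CC (itpB.D S)) Ki.e m b := h2.resolve_left hmb
  obtain ⟨s, h4, h5, h6⟩ := h'.d2 b m h1 k1
  obtain ⟨z, w, g1, g2, g3, g4, g5, g6, g7, g8⟩ := h'.gen Ki.e m b m n b s hmb hk
    (pc_self h'.lin k1) k2 (pc_self h'.lin h1) h6
  have g9 : ltC (itpB.D S) z w := pc_lt h'.lin g3 g4 h3
  have f1 := (e2 _ _).1 g2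
  have f2 := (e1 _ _).1 g9
  have f3 := (e1 _ _).1 g5
  have f4 := (e1 _ _).1 g6
  rw [hm] at f3
  rw [hn] at f4
  refine ⟨e z, e w, f1, f2, f3, ?_⟩
  rcases chn_le hl hcy with h7 | h7
  · rw [← h7]; exact f4
  · exact hl.tr _ _ _ f4 h7

end Q

/-- the class of pairs of linear orders -/
def WC (S : L2.Structure ℕ) : Prop := G3 (ra S) (rb S)

section fd

variable {L : FirstOrder.Language.{0, 0}} {V : L.Structure ℕ → Prop}
  {lt lt2 F : L.Structure ℕ → ℕ → ℕ → Prop}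

theorem fd_Pt (hlt : ∀ {α : Type} (i j : α), FD V (fun S v => lt S (v i) (v j)))
    (hlt2 : ∀ {α : Type} (i j : α), FD V (fun S v => lt2 S (v i) (v j))) {α : Type}
    (i j : α) : FD V (fun S v => Pt (lt S) (lt2 S) (v i) (v j)) :=
  ((hlt _ _).and (fd_Ad hlt2 _ _)).or ((hlt _ _).and (fd_Ad hlt2 _ _))

theorem fd_Fd (hlt : ∀ {α : Type} (i j : α), FD V (fun S v => lt S (v i) (v j)))
    (hlt2 : ∀ {α : Type} (i j : α), FD V (fun S v => lt2 S (v i) (v j))) {α : Type}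
    (i j : α) : FD V (fun S v => Fd (lt S) (lt2 S) (v i) (v j)) :=
  (fd_Pt hlt hlt2 _ _).or ((FD.eq _ _).and
    (StA.FD.all1 (P := fun S v z => ¬ Pt (lt S) (lt2 S) (v i) z) (fd_Pt hlt hlt2 _ _).not))

theorem fd_Mn (hlt : ∀ {α : Type} (i j : α), FD V (fun S v => lt S (v i) (v j)))
    (hF : ∀ {α : Type} (i j : α), FD V (fun S v => F S (v i) (v j))) {α : Type}
    (i j : α) : FD V (fun S v => Mn (lt S) (F S) (v i) (v j)) :=
  ((hF _ _).and ((FD.eq _ _).or (hlt _ _))).or ((FD.eq _ _).and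
    (StA.FD.ex1 (P := fun S v w => F S (v i) w ∧ lt S (v i) w) ((hF _ _).and (hlt _ _))))

theorem fd_Lo (hlt : ∀ {α : Type} (i j : α), FD V (fun S v => lt S (v i) (v j)))
    (hF : ∀ {α : Type} (i j : α), FD V (fun S v => F S (v i) (v j))) {α : Type}
    (i j : α) : FD V (fun S v => Lo (lt S) (F S) (v i) (v j)) :=
  StA.FD.ex1 (P := fun S v u => ∃ w, Mn (lt S) (F S) (v i) u ∧ Mn (lt S) (F S) (v j) w ∧
      (lt S u w ∨ (u = w ∧ lt S (v i) (v j))))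
    (StA.FD.ex1 (P := fun S v w => Mn (lt S) (F S) (v (Sum.inl i)) (v (Sum.inr ())) ∧
      Mn (lt S) (F S) (v (Sum.inl j)) w ∧
      (lt S (v (Sum.inr ())) w ∨ (v (Sum.inr ()) = w ∧ lt S (v (Sum.inl i)) (v (Sum.inl j)))))
      ((fd_Mn hlt hF _ _).and ((fd_Mn hlt hF _ _).and
        ((hlt _ _).or ((FD.eq _ _).and (hlt _ _))))))

end fd

theorem ax_WC : Ax WC := by
  have h1 := ax_SLin (lt := ra) fun i j => fd_ra i j
  have h2 := ax_SLin (lt := rb) fun i j => fd_rb i j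
  have h3 := ax_Invo (F := fun S : L2.Structure ℕ => Fd (ra S) (rb S))
    fun i j => fd_Fd fd_ra fd_rb i j
  have h4 : Ax (fun S : L2.Structure ℕ => ∀ w : Fin 2 → ℕ, rb S (w 0) (w 1) ↔
      Lo (ra S) (Fd (ra S) (rb S)) (w 0) (w 1)) :=
    axN ((fd_rb _ _).iff (fd_Lo (F := fun S : L2.Structure ℕ => Fd (ra S) (rb S)) fd_ra
      (fun i j => fd_Fd fd_ra fd_rb i j) _ _))
  refine (h1.and (h2.and (h3.and h4))).congr fun S => ⟨?_, ?_⟩
  · rintro ⟨k1, k2, k3, k4⟩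
    exact ⟨k1, k2, k3, fun x y => k4 ![x, y]⟩
  · rintro ⟨k1, k2, k3, k4⟩
    exact ⟨k1, k2, k3, fun w => k4 _ _⟩

/-- the interpreted relations -/
def rel22 : ∀ {n : ℕ}, L2.Relations n → L2.Structure ℕ → (Fin n → ℕ) → Prop
  | _, R2.a, S, v => ra S (v 0) (v 1)
  | _, R2.b, S, v => Fd (ra S) (rb S) (v 0) (v 1)

/-- the interpretation -/
def itpC : Itp L2 L2 where
  W := WC
  axW := ax_WC
  dom := fun _ _ => True
  rel := rel22
  fdom := FD.const True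
  frel := by
    intro n R
    cases R with
    | a => exact fd_ra _ _
    | b => exact fd_Fd fd_ra fd_rb _ _
  inf := fun S hS N => ⟨N, le_refl _, trivial⟩

theorem upC {S S' : L2.Structure ℕ} (h : WC S) (h' : WC S')
    (π : {u // itpC.dom S u} ≃ {u // itpC.dom S' u})
    (hπ : ∀ {n : ℕ} (R : L2.Relations n) (u : Fin n → {u // itpC.dom S u}),
        itpC.rel R S (fun i => u i) ↔ itpC.rel R S' (fun i => π (u i))) : SIso S S' := by
  let σ : Equiv.Perm ℕ := ⟨fun x => π ⟨x, trivial⟩, fun x => π.symm ⟨x, trivial⟩,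
    fun x => congrArg Subtype.val (π.symm_apply_apply ⟨x, trivial⟩),
    fun x => congrArg Subtype.val (π.apply_symm_apply ⟨x, trivial⟩)⟩
  have h1 : ∀ x y, ra S' (σ x) (σ y) ↔ ra S x y := fun x y =>
    (hπ R2.a ![⟨x, trivial⟩, ⟨y, trivial⟩]).symm
  have h2 : ∀ x y, Fd (ra S') (rb S') (σ x) (σ y) ↔ Fd (ra S) (rb S) x y := fun x y =>
    (hπ R2.b ![⟨x, trivial⟩, ⟨y, trivial⟩]).symm
  have h3 : ∀ x y, Mn (ra S') (Fd (ra S') (rb S')) (σ x) (σ y) ↔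
      Mn (ra S) (Fd (ra S) (rb S)) x y := by
    intro x y
    unfold Mn
    rw [h2, h1, σ.injective.eq_iff]
    refine or_congr Iff.rfl (and_congr Iff.rfl ⟨?_, ?_⟩)
    · rintro ⟨w, k1, k2⟩
      refine ⟨σ.symm w, ?_, ?_⟩
      · rw [← h2, Equiv.apply_symm_apply]; exact k1
      · rw [← h1, Equiv.apply_symm_apply]; exact k2
    · rintro ⟨w, k1, k2⟩
      exact ⟨σ w, (h2 _ _).2 k1, (h1 _ _).2 k2⟩
  refine siso2 σ h1 fun x y => ?_
  rw [h'.eq, h.eq]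
  unfold Lo
  constructor
  · rintro ⟨u, v, k1, k2, k3⟩
    refine ⟨σ.symm u, σ.symm v, ?_, ?_, ?_⟩
    · rw [← h3, Equiv.apply_symm_apply]; exact k1
    · rw [← h3, Equiv.apply_symm_apply]; exact k2
    · rw [← h1, ← h1, Equiv.apply_symm_apply, Equiv.apply_symm_apply, σ.symm.injective.eq_iff]
      exact k3
  · rintro ⟨u, v, k1, k2, k3⟩
    refine ⟨σ u, σ v, (h3 _ _).2 k1, (h3 _ _).2 k2, ?_⟩
    rw [h1, h1, σ.injective.eq_iff]
    exact k3

theorem cntC : Itp.Cnt itpC Unit (fun _ => ()) := by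
  refine ⟨fun S S' h h' hi _ => ?_, fun _ _ _ c => ?_⟩
  · obtain ⟨π, hπ⟩ := (itpC.D_iso_iff h h').1 hi
    exact upC h h' π hπ
  · exact (Pool.Agent.W889.VC.BP.const (() = c))

theorem exC {M : L2.Structure ℕ} (h : WB M) (h' : WA (itpB.D M)) :
    ∃ S, WC S ∧ SIso (itpC.D S) M := by
  obtain ⟨h1, h2⟩ := exists_G3 h.lin h.inv (Q1_of h h') (Q2_of h h')
  have hW : WC (mk2 (ra M) (Lo (ra M) (rb M))) := by
    unfold WC
    rw [ra_mk2, rb_mk2]
    exact h1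
  refine ⟨_, hW, itpC.D_iso hW
    ⟨fun x => ⟨x, trivial⟩, fun x => x.1, fun x => rfl, fun x => rfl⟩ ?_⟩
  intro n R u
  cases R with
  | a =>
    have e1 : u = pr (u 0) (u 1) := by funext j; fin_cases j <;> rfl
    show _ ↔ ra (mk2 (ra M) (Lo (ra M) (rb M))) (u 0) (u 1)
    rw [ra_mk2]
    conv_lhs => rw [e1]
    exact Iff.rfl
  | b =>
    have e1 : u = pr (u 0) (u 1) := by funext j; fin_cases j <;> rfl
    show _ ↔ Fd (ra (mk2 (ra M) (Lo (ra M) (rb M)))) (rb (mk2 (ra M) (Lo (ra M) (rb M))))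
      (u 0) (u 1)
    rw [ra_mk2, rb_mk2, h2]
    conv_lhs => rw [e1]
    exact Iff.rfl

end Pool.Agent.U97.TLO
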