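import Pool.Agent.U97.TLO.Back

set_option autoImplicit false

/-!
Runs of adjacent points in linear orders.
-/

namespace Pool.Agent.U97.TLO

section defs

variable (lt F : ℕ → ℕ → Prop)

/-- adjacent points -/
def Ad (x y : ℕ) : Prop := lt x y ∧ ∀ z, lt x z → ¬ lt z y

/-- chains of adjacent points -/
def Chn : ℕ → ℕ → ℕ → Prop
  | 0, x, y => x = y
  | n + 1, x, y => ∃ z, Chn n x z ∧ Ad lt z y

/-- starts of runs -/
def Dm (x : ℕ) : Prop := ∀ y, ¬ Ad lt y x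

/-- the run of `x` has `n` points after `x` -/
def Cl (n x : ℕ) : Prop := ∃ y, Chn lt n x y ∧ ∀ z, ¬ Ad lt y z

/-- orders with an involution with bounded runs -/
structure G2 (N : ℕ) : Prop where
  lin : SLin lt
  inv : Invo F
  run : ∀ x, ∃ j : Fin (N + 1), ∃ y, Dm lt y ∧ Chn lt j y x
  adj : ∀ x y x' y', Ad lt x y → F x x' → F y y' → Ad lt x' y'
  inf : ∀ m : ℕ, ∃ X : Fin m → ℕ, Function.Injective X ∧ ∀ i, Dm lt (X i)

end defs

section one

variable {lt F : ℕ → ℕ → Prop} {N : ℕ}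

theorem ad_uniR (h : SLin lt) {x y z : ℕ} (h1 : Ad lt x y) (h2 : Ad lt x z) : y = z := by
  rcases h.tot y z with h3 | h3 | h3
  · exact h3
  · exact absurd h3 (h2.2 y h1.1)
  · exact absurd h3 (h1.2 z h2.1)

theorem ad_uniL (h : SLin lt) {x y z : ℕ} (h1 : Ad lt x z) (h2 : Ad lt y z) : x = y := by
  rcases h.tot x y with h3 | h3 | h3
  · exact h3
  · exact absurd h2.1 (h1.2 y h3)
  · exact absurd h1.1 (h2.2 x h3)

theorem chn_uni (h : SLin lt) {n x y z : ℕ} (h1 : Chn lt n x y) (h2 : Chn lt n x z) : y = z := by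
  induction n generalizing y z with
  | zero => exact h1.symm.trans h2
  | succ n ih =>
    obtain ⟨w, h3, h4⟩ := h1
    obtain ⟨w', h5, h6⟩ := h2
    have := ih h3 h5
    subst this
    exact ad_uniR h h4 h6

theorem chn_dm (h : SLin lt) {n m x y z : ℕ} (hx : Dm lt x) (hy : Dm lt y) (h1 : Chn lt n x z)
    (h2 : Chn lt m y z) : x = y ∧ n = m := by
  induction n generalizing m z with
  | zero =>
    cases m with
    | zero => exact ⟨h1.trans h2.symm, rfl⟩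
    | succ m =>
      obtain ⟨w, _, h4⟩ := h2
      have h5 : x = z := h1
      exact absurd (h5 ▸ h4) (hx w)
  | succ n ih =>
    obtain ⟨w, h3, h4⟩ := h1
    cases m with
    | zero =>
      have h5 : y = z := h2
      exact absurd (h5 ▸ h4) (hy w)
    | succ m =>
      obtain ⟨w', h5, h6⟩ := h2
      have := ad_uniL h h4 h6
      subst this
      obtain ⟨h7, h8⟩ := ih h3 h5
      exact ⟨h7, by rw [h8]⟩

theorem chn_le (h : SLin lt) {n x z : ℕ} (h1 : Chn lt n x z) : x = z ∨ lt x z := by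
  induction n generalizing z with
  | zero => exact Or.inl h1
  | succ n ih =>
    obtain ⟨w, h3, h4⟩ := h1
    rcases ih h3 with rfl | h5
    · exact Or.inr h4.1
    · exact Or.inr (h.tr _ _ _ h5 h4.1)

theorem chn_in (h : SLin lt) {n m x z w : ℕ} (h1 : Chn lt n x z) (h2 : Chn lt m x w)
    (hnm : n < m) : lt z w := by
  induction m generalizing w with
  | zero => omega
  | succ m ih =>
    obtain ⟨v, h3, h4⟩ := h2
    rcases Nat.lt_succ_iff_lt_or_eq.1 hnm with h5 | h5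
    · exact h.tr _ _ _ (ih h3 h5) h4.1
    · subst h5
      rw [chn_uni h h1 h3]
      exact h4.1

theorem chn_out (h : SLin lt) {n x y z : ℕ} (hy : Dm lt y) (hxy : lt x y) (h1 : Chn lt n x z) :
    lt z y := by
  induction n generalizing z with
  | zero => exact (show x = z from h1) ▸ hxy
  | succ n ih =>
    obtain ⟨w, h3, h4⟩ := h1
    have h5 := ih h3
    rcases h.tot z y with h6 | h6 | h6
    · exact absurd (h6 ▸ h4) (hy w)
    · exact h6
    · exact absurd h6 (h4.2 y h5)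

theorem chn_ord (h : SLin lt) {n m x y z w : ℕ} (hy : Dm lt y) (hxy : lt x y)
    (h1 : Chn lt n x z) (h2 : Chn lt m y w) : lt z w := by
  have h3 := chn_out h hy hxy h1
  rcases chn_le h h2 with rfl | h4
  · exact h3
  · exact h.tr _ _ _ h3 h4

theorem chn_pre {n m x z : ℕ} (h1 : Chn lt n x z) (hm : m ≤ n) : ∃ w, Chn lt m x w := by
  induction n generalizing z with
  | zero =>
    have : m = 0 := by omega
    subst this
    exact ⟨z, h1⟩
  | succ n ih =>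
    rcases Nat.lt_or_eq_of_le hm with h5 | h5
    · obtain ⟨w, h3, _⟩ := h1
      exact ih h3 (by omega)
    · subst h5
      exact ⟨z, h1⟩

/-- the points of the run -/
theorem run_iff (h : G2 lt F N) {x m : ℕ} (hx : Dm lt x) :
    (∃ z, Chn lt m x z) ↔ ∃ n, n ≤ N ∧ m ≤ n ∧ Cl lt n x := by
  constructor
  · intro h1
    have bd : ∀ n z, Chn lt n x z → n ≤ N := by
      intro n z hz
      obtain ⟨j, y, hy, h2⟩ := h.run z
      have := (chn_dm h.lin hx hy hz h2).2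
      have := j.2
      omega
    by_contra hcon
    have key : ∀ k, ∃ z, Chn lt (m + k) x z := by
      intro k
      induction k with
      | zero => exact h1
      | succ k ih =>
        obtain ⟨z, hz⟩ := ih
        by_contra h3
        refine hcon ⟨m + k, bd _ _ hz, by omega, z, hz, fun w hw => h3 ⟨w, z, hz, hw⟩⟩
    obtain ⟨z, hz⟩ := key (N + 1)
    have := bd _ _ hz
    omega
  · rintro ⟨n, -, h2, y, h3, -⟩
    exact chn_pre h3 h2

theorem dm_F (h : G2 lt F N) {x x' : ℕ} (hx : Dm lt x) (hF : F x x') : Dm lt x' := by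
  intro y hy
  obtain ⟨y', hy'⟩ := h.inv.ex y
  exact hx y' (h.adj _ _ _ _ hy hy' (h.inv.sym _ _ hF))

theorem chn_F (h : G2 lt F N) {n x z x' z' : ℕ} (h1 : Chn lt n x z) (hx : F x x') (hz : F z z') :
    Chn lt n x' z' := by
  induction n generalizing z z' with
  | zero =>
    have h2 : x = z := h1
    subst h2
    exact h.inv.uni _ _ _ hx hz
  | succ n ih =>
    obtain ⟨w, h3, h4⟩ := h1
    obtain ⟨w', hw'⟩ := h.inv.ex w
    exact ⟨w', ih h3 hw', h.adj _ _ _ _ h4 hw' hz⟩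

end one

/-- bijections from relations -/
theorem perm_of_rel {R : ℕ → ℕ → Prop} (h1 : ∀ a, ∃ b, R a b) (h2 : ∀ b, ∃ a, R a b)
    (h3 : ∀ a b b', R a b → R a b' → b = b') (h4 : ∀ a a' b, R a b → R a' b → a = a') :
    ∃ σ : Equiv.Perm ℕ, ∀ a, R a (σ a) := by
  choose f hf using h1
  choose g hg using h2
  exact ⟨⟨f, g, fun a => h4 _ _ _ (hg (f a)) (hf a), fun b => h3 _ _ _ (hf (g b)) (hg b)⟩, hf⟩

section two

variable {lt F lt' F' : ℕ → ℕ → Prop} {N : ℕ}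

/-- the extension of a bijection of the starts -/
def Ext (lt lt' : ℕ → ℕ → Prop) (π : {u // Dm lt u} ≃ {u // Dm lt' u}) (z z' : ℕ) : Prop :=
  ∃ (x : {u // Dm lt u}) (j : ℕ), Chn lt j x z ∧ Chn lt' j (π x) z'

theorem Ext.symm {π : {u // Dm lt u} ≃ {u // Dm lt' u}} {z z' : ℕ} (h : Ext lt lt' π z z') :
    Ext lt' lt π.symm z' z := by
  obtain ⟨x, j, h1, h2⟩ := h
  exact ⟨π x, j, h2, by rw [Equiv.symm_apply_apply]; exact h1⟩

variable {π : {u // Dm lt u} ≃ {u // Dm lt' u}}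

theorem ext_ex (h : G2 lt F N) (h' : G2 lt' F' N)
    (hc : ∀ n, 1 ≤ n → n ≤ N → ∀ x, Cl lt n x.1 → Cl lt' n (π x)) (z : ℕ) :
    ∃ z', Ext lt lt' π z z' := by
  obtain ⟨j, x, hx, h1⟩ := h.run z
  rcases Nat.eq_zero_or_pos (j : ℕ) with h2 | h2
  · rw [h2] at h1
    exact ⟨π ⟨x, hx⟩, ⟨x, hx⟩, 0, h1, rfl⟩
  · obtain ⟨n, h3, h4, h5⟩ := (run_iff h hx).1 ⟨z, h1⟩
    obtain ⟨z', hz'⟩ := (run_iff h' (π ⟨x, hx⟩).2).2 ⟨n, h3, h4, hc n (by omega) h3 ⟨x, hx⟩ h5⟩
    exact ⟨z', ⟨x, hx⟩, j, h1, hz'⟩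

theorem ext_uni (h : SLin lt) (h' : SLin lt') {z a b : ℕ} (h1 : Ext lt lt' π z a)
    (h2 : Ext lt lt' π z b) : a = b := by
  obtain ⟨x, j, h3, h4⟩ := h1
  obtain ⟨y, k, h5, h6⟩ := h2
  obtain ⟨h7, rfl⟩ := chn_dm h x.2 y.2 h3 h5
  have := Subtype.ext h7
  subst this
  exact chn_uni h' h4 h6

theorem ext_lt (h : SLin lt) (h' : SLin lt')
    (hl : ∀ x y : {u // Dm lt u}, lt x y → lt' (π x) (π y)) {z w a b : ℕ}
    (h1 : Ext lt lt' π z a) (h2 : Ext lt lt' π w b) (hzw : lt z w) : lt' a b := by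
  obtain ⟨x, j, h3, h4⟩ := h1
  obtain ⟨y, k, h5, h6⟩ := h2
  rcases h.tot x y with h7 | h7 | h7
  · have := Subtype.ext h7
    subst this
    rcases lt_trichotomy j k with h8 | h8 | h8
    · exact chn_in h' h4 h6 h8
    · subst h8
      rw [chn_uni h h3 h5] at hzw
      exact absurd hzw (h.irr _)
    · exact (h.asym hzw (chn_in h h5 h3 h8)).elim
  · exact chn_ord h' (π y).2 (hl _ _ h7) h4 h6
  · exact (h.asym hzw (chn_ord h x.2 h7 h5 h3)).elim

theorem ext_F (h : G2 lt F N) (h' : G2 lt' F' N)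
    (hF : ∀ x y : {u // Dm lt u}, F x y → F' (π x) (π y)) {z w a b : ℕ}
    (h1 : Ext lt lt' π z a) (h2 : Ext lt lt' π w b) (hzw : F z w) : F' a b := by
  obtain ⟨x, j, h3, h4⟩ := h1
  obtain ⟨x', hx'⟩ := h.inv.ex x
  have h5 := chn_F h h3 hx' hzw
  have h6 : Dm lt x' := dm_F h x.2 hx'
  obtain ⟨c, hc⟩ := h'.inv.ex a
  have h7 := chn_F h' h4 (hF x ⟨x', h6⟩ hx') hc
  have h8 : Ext lt lt' π w c := ⟨⟨x', h6⟩, j, h5, h7⟩
  rw [ext_uni h.lin h'.lin h2 h8]
  exact hc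

theorem iso_of_runs (h : G2 lt F N) (h' : G2 lt' F' N)
    (hc : ∀ n, 1 ≤ n → n ≤ N → ∀ x, Cl lt n x.1 ↔ Cl lt' n (π x))
    (hl : ∀ x y : {u // Dm lt u}, lt x y ↔ lt' (π x) (π y))
    (hF : ∀ x y : {u // Dm lt u}, F x y ↔ F' (π x) (π y)) :
    ∃ σ : Equiv.Perm ℕ, (∀ x y, lt' (σ x) (σ y) ↔ lt x y) ∧ ∀ x y, F' (σ x) (σ y) ↔ F x y := by
  have hc' : ∀ n, 1 ≤ n → n ≤ N → ∀ x, Cl lt' n x.1 → Cl lt n (π.symm x) := by
    intro n h1 h2 x h3
    rw [hc n h1 h2, Equiv.apply_symm_apply]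
    exact h3
  have hl' : ∀ x y : {u // Dm lt' u}, lt' x y → lt (π.symm x) (π.symm y) := by
    intro x y h1
    rw [hl, Equiv.apply_symm_apply, Equiv.apply_symm_apply]
    exact h1
  have hF' : ∀ x y : {u // Dm lt' u}, F' x y → F (π.symm x) (π.symm y) := by
    intro x y h1
    rw [hF, Equiv.apply_symm_apply, Equiv.apply_symm_apply]
    exact h1
  obtain ⟨σ, hσ⟩ := perm_of_rel (R := Ext lt lt' π)
    (ext_ex h h' fun n h1 h2 x h3 => (hc n h1 h2 x).1 h3)
    (fun b => by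
      obtain ⟨a, ha⟩ := ext_ex h' h hc' b
      exact ⟨a, by simpa using ha.symm⟩)
    (fun a b b' h1 h2 => ext_uni h.lin h'.lin h1 h2)
    (fun a a' b h1 h2 => ext_uni h'.lin h.lin h1.symm h2.symm)
  refine ⟨σ, fun x y => ⟨fun h1 => ?_, fun h1 => ?_⟩, fun x y => ⟨fun h1 => ?_, fun h1 => ?_⟩⟩
  · exact ext_lt h'.lin h.lin hl' (hσ x).symm (hσ y).symm h1
  · exact ext_lt h.lin h'.lin (fun x y h3 => (hl x y).1 h3) (hσ x) (hσ y) h1
  · exact ext_F h' h hF' (hσ x).symm (hσ y).symm h1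
  · exact ext_F h h' (fun x y h3 => (hF x y).1 h3) (hσ x) (hσ y) h1

end two

end Pool.Agent.U97.TLO
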